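import Pool.Agent.NH88.CM.GCen2
import Pool.Agent.NH88.CM.Hodge
import Pool.Agent.NH88.CM.ConvD

set_option autoImplicit false

/-!
# The period torsors of 1-motives are decided in codimension two

Let `A` be an abelian variety over the field `ℚ̄` of algebraic numbers. We consider the statements

* (T) (`OneMotiveTorsors`) for every 1-motive `M` over a factor of `A`, every algebraic group over `ℚ` with
  a torsor over `ℚ̄` which contains the comparison isomorphism of `M` contains the Mumford-Tate group of
  `M`;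
* (P) (`AbelianTorsor`) the same for the homology `H_1(A)` only;
* (H) (`AllHodge`) the de Rham-Betti classes in `H^1(A)^{⊗ 2m}(m)`, for all `m`, are Hodge classes;
* (C) (`QuarticHodge`) the de Rham-Betti classes in `Sym^2 (Sym^2 H^1(A))(2)`, which are classes of
  codimension two on `A^4`, are Hodge classes.

The conjecture of Grothendieck `trdeg ℚ̄(β) = dim G_mod` for `X = A` implies (P): `G_mod`, for `H^1(A)`, is
the Mumford-Tate group (André), which is connected, and the torsors of `G` and of the Mumford-Tate group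
which contain `β` intersect in a torsor of the intersection of the groups. The motivic Galois group of a
1-motive is its Mumford-Tate group as well (Brylinski, André), and in the terminology of André (T) says
that `Ω^And = Ω^dRB` for all 1-motives over `A`, including all extensions and all deficient 1-motives.

**Theorem.** The statements (T), (P) and (H) are equivalent, for every abelian variety `A` over `ℚ̄`. (So
the conjecture of Grothendieck for `A` implies (T) for all 1-motives over `A`.)
Suppose that the centre of the Hodge group is determined by the endomorphisms (`CentreDetermined`): the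
Lie algebra `𝔤` of the Hodge group has no proper algebraic subalgebra which contains `[𝔤, 𝔤]` and acts
semisimply on `H_1(A, ℚ)`, with the same commutant. This is the case if `A` has no factor of type IV
(`NoFactorOfTypeIV`), and if the centre is given by a CM field which is abelian over `ℚ`, or more
generally ternary, and all CM types occur (`HasCMCentre`, see below). Then (T), (P), (H) are also
equivalent to (C), and all of them hold if `A` is rigid (`IsRigid`): all Lie subalgebras of `𝔤` which act
semisimply on `H_1(A, ℚ)`, with the same commutant, contain `[𝔤, 𝔤]`.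

The group `G` in (T) is not assumed to be connected or reductive. By the theorem of Deligne all Hodge
classes on abelian varieties are de Rham-Betti classes, so that `𝔤`, as defined here (`InLie`), is the Lie
algebra of the Hodge group. There is no hypothesis on the periods: `AbVar` describes the abelian variety
by theta functions (see Pool/Agent/Y102/AVDefs.lean), and `IsOneMotive` the 1-motives by the logarithms of
algebraic points. The last part says that `A` is determined by its endomorphisms (`determined`).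

The rigid abelian varieties with determined centre include

* all abelian varieties with complex multiplication by all CM types of abelian extensions of `ℚ`, so that
  (T) holds for the factors of their powers, for example the Jacobians of all Fermat curves (`allTypes`);
* the Kuga-Satake varieties of the K3 surfaces over `ℚ̄` (or hyperkähler varieties, cubic fourfolds,
  ...) whose field of endomorphisms `E` is an abelian (or ternary) CM field, if the rank of the
  transcendental part over `E` is one or even;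
* products of these with elliptic curves, abelian varieties with real or quaternion multiplication of
  maximal degree, and the Kuga-Satake varieties of K3 surfaces whose field of endomorphisms `F` is
  totally real, of rank not five over `F` (see below).

The motives `h^2` of the K3 surfaces are in the category generated by the Kuga-Satake varieties, so that
we get `Ω^And = Ω^dRB` for the motives `h^*` of products of such K3 surfaces, elliptic curves and Fermat
curves, and for the motives `H^1(C - S, T)` of the curves `C` whose Jacobians are factors of `A`, for all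
finite sets of points `S`, `T` (incomplete Beta integrals, if `C` is a Fermat curve).

## The centre

`HasCMCentre`: `𝔤 / [𝔤, 𝔤]` is the space `E^-` of the elements `x` with `c(x) = -x` of a CM field or totally
real field `E` with the complex conjugation `c`, and for every CM type `Φ` of `E` the character
`x ↦ ∑_{s ∈ Φ} s(x)` of `𝔤` occurs in `H_1(A, ℂ)`; the field `E` is abelian over `ℚ`, or it is ternary:
every nonzero Galois stable space of odd functions with rational values on the set of the embeddings
`E → ℂ` contains a nonzero function with values in `{-1, 0, 1}`. If `E` is totally real then `E^- = 0`,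
there are no CM types, and the condition says that the Hodge group is semisimple (`centre_of_perfect`).

Abelian fields are ternary (`ternary_of_abelian`), and so are the fields for which the representation of
the Galois group on the odd functions is irreducible (`ternary_of_irreducible`), for example if the
Galois group is the general one `{±1}^n ⋊ S_n`; the CM fields of degree `2 p`, `p` prime, are ternary (the
representation is irreducible, or `E` contains an imaginary quadratic field, and it is the sum of the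
constant functions and an irreducible representation which contains differences of two delta functions,
up to signs). A Galois extension with dihedral Galois group of order eight is not ternary. The condition
is sharp: if `E` is not ternary, then the variety `D` in (a) is not determined, since the subtorus defined
by a space without such functions has the same commutant.

## Examples

(a) Let `E` be an abelian CM field. Let `D` be the product of the abelian varieties `A_Φ = ℂ^Φ / Φ(O_E)` for
all CM types `Φ` of `E`. The Hodge structure of `H_1(D, ℚ) = ⊕_Φ E` is given by the element `(i ε_Φ(s))_s`,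
`ε_Φ(s) = 1` for `s ∈ Φ` and `ε_Φ(s) = -1` for the others, of `E ⊗ ℂ = ⊕_s ℂ`. It is the image of the element
of `E^- ⊗ ℂ` supported at the identity and at `c` under the maps `E^- → E^-`, `x ↦ ∑_{t ∈ Φ} t⁻¹(x)`, and the
translates of this element under the Galois group span `E^- ⊗ ℂ`. So `𝔤 = E^-`, and `x` acts on the
component of `H_1(D, ℂ)` for `(Φ, s)` by the sum of the `u(x)`, where `u` runs through the CM type
`s Φ⁻¹`. All CM types occur, and `D` satisfies the conditions (`AllTypes`, `allTypes`). Every abelian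
variety with complex multiplication by a subfield of `E` is a factor of a power of `D`, and all powers
satisfy the conditions again. For an arbitrary CM field `E` let `D` be the Kuga-Satake variety of a Hodge
structure of K3 type of rank one over `E`.

(b) Let `A` be isogenous to `B × D`, where `B` is rigid and `D` is as in (a). If the centre of the Hodge
group of `B` is controlled by `D` (the elements of `𝔤` which vanish on `D` are in `[𝔤_B, 𝔤_B]`), then `A`
satisfies the conditions (`product`). This is the case if `E` is abelian and splits the centre of the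
Hodge group of `B`, and also if `B` has semisimple Hodge group.

(c) The following abelian varieties are rigid: the abelian varieties whose homology is a sum of planes, that
is products of elliptic curves and of abelian varieties with real or quaternion multiplication of maximal
degree (`rigid_of_planes`); the Kuga-Satake varieties for totally real fields `F` and rank not five
(`rigid_of_typeSpin`); the Kuga-Satake varieties for CM fields and even rank, WITHOUT a condition on the
centre (`rigid_of_typeUnitary`); the products of rigid abelian varieties with small blocks and of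
Kuga-Satake varieties with `End = ℚ` and arbitrary ranks `≥ 6`, which may be equal
(`rigid_of_typeSpinSum`; for these products see also Pool/Agent/NH25/PK/KugaSatakeProducts.lean); the
products of two rigid abelian varieties whose derived algebras have no common quotients
(`rigid_of_product`).

(d) For the Kuga-Satake varieties `B` of unitary type itself, for a ternary CM field `E`: the characters
for the CM types occur in the parts `⊗_σ Λ^0` or `Λ^k` of the homology `⊗_σ Λ^* W_σ`. So no further factor
is necessary.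

## Relation to earlier work in this repository

OneMotivesMumfordTate (MP_5d33ca_ag) has (T) for determined abelian varieties. Determined abelian varieties
satisfy (H), but (H), or (C), is the more natural hypothesis: it is a part of the period conjecture for
algebraic cycles, it can be checked on `A` only, and it does not exclude that the Hodge group has
subgroups with the same commutant (for example `SL_2`, acting by `Sym^3`, if `A` is a surface with
`End(A) = ℤ`). Moreover OneMotivesMumfordTate contains the Kuga-Satake varieties of unitary type and the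
abelian varieties with complex multiplication only if the centre of `𝔤` is simple (no proper algebraic
subalgebras), which for an abelian field `E` of degree `2 n` holds only if `E` is cyclic and `n` is a
power of two. For the abelian varieties with complex multiplication alone, `Ω^And = Ω^dRB` for abelian
fields (and for others) follows from the theorems in MP_f11a48_ag (MildCMMotives, GoodClassCMMotives,
SmallestSubtorsorCM), which have the theorems of Bost and of Deligne on their periods as hypotheses; here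
there is no hypothesis on the periods, and the theorem includes the 1-motives and the noncommutative Hodge
groups. The file Pool/Agent/NH25/PK/KugaSatakeProducts.lean of a teammate, which is not handed in, has the
torsor theorem for the products of a determined `B` with small blocks and of `C` of type `TypeSpinSum`; if
`B` has semisimple Hodge group this is contained in the theorem here, and if `B` is a sum of planes with
complex multiplication by several imaginary quadratic fields, then `B × C` is a factor of a product as in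
(b), where `E` is the compositum. The observation that one quartic class decides, for the de Rham-Betti
classes on abelian varieties with a condition on the centre, is also in Pool/Agent/Y102/AV14.lean
(`hodge_of_cas`, not handed in).

## Proof

*(P) implies (H).* Let `φ` be a de Rham-Betti class. The group of the similitudes of `H_1(A)` which multiply
`φ` by the power `m` of the multiplier has a torsor over `ℚ̄` which contains the periods: the equations for
the torsor have coefficients in `ℚ̄`, and the comparison isomorphism (multiplied by a square root of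
`2 π i`) is a solution over `ℂ`, so that there is a solution in `ℚ̄`. By (P) the group contains the Deligne
torus, and so `φ` is a Hodge class (`allH_of_torsor`).

*(H) or (C) implies that the periods determine `𝔤`.* Let `𝔥` be an algebraic subalgebra of `𝔤` which contains
the rational components of the logarithmic derivatives of the periods. By the theorem of Schneider and
Lang (Wüstholz) it acts semisimply on `H_1(A, ℚ)`, with the commutant `End(A) ⊗ ℚ`. The trace form of `𝔥` is
nondegenerate, and its inverse gives the Casimir form, a quadratic form on `Sym^2 H_1(A)` which is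
invariant under `𝔥`; so it is a de Rham-Betti class. By (C) it is a Hodge class and invariant under `𝔤`.
This implies that the elements of `𝔤` are in `𝔥` up to elements which commute with `𝔤`, and so
`[𝔤, 𝔤] ⊆ 𝔥` (`der_le_of_two`). If the centre is determined this gives `𝔥 = 𝔤`. In general let `P_a` be the
projections to the isotypic components of `H_1(A, ℂ)` for the centre of `𝔤`, with the ranks `d_a`. If
`𝔥` does not contain the centre, then, since `𝔥` is closed under replicas, there are natural numbers
`m_a`, not all zero, such that the character `X ↦ ∑ m_a tr(X P_a)` of `𝔤` vanishes on `𝔥` and not on `𝔤`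
(`exists_rel`). The product of powers of the determinants of the isotypic components, with the exponents
`m_a`, is a multilinear form on which `𝔤` acts by this character; its rational components are de
Rham-Betti classes, since they are annihilated by `𝔥`, and they are not annihilated by `𝔤`, a
contradiction to (H) (`centre_le`).

*The periods determine `𝔤` implies (T).* This is the proof in OneMotivesMumfordTate: the Lie algebra of `G`
contains a lift of the weight, its image in `End(H_1(A, ℚ))` is algebraic, and so it is `𝔤`; the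
unipotent part is given by the theorems of Bost and Charles, of Wüstholz, and of Schneider and Lang for
theta functions (`torsor_of_detX`).

*Rigid abelian varieties.* Let `𝔥` be an algebraic subalgebra of `𝔤` which acts semisimply with the same
commutant; it contains `[𝔤, 𝔤]`. Suppose `HasCMCentre`. Let `U` be the image of `𝔥` in `E^-`, and let `R` be
the space of the relations: the odd functions `f` on the set of the embeddings, with rational values,
such that `∑_s f(s) s(x) = 0` for all `x ∈ U`. It is Galois stable. So if it is not zero, it contains a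
nonzero function with values in `{-1, 0, 1}`. If `E` is abelian this is seen as follows: there is a
character `χ` of the Galois group whose isotypic component is in the subspace; let `K` be its kernel, `g`
an element which generates the quotient by `K`, of order `d`; then the product of `∑_{k ∈ K} k` and the
elements `1 - g^{d/p}`, for the prime numbers `p` dividing `d`, has the coefficients `0`, `1`, `-1` by the
Chinese remainder theorem (`exists_sign`). An odd function with these values is the difference of two CM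
types. So if `R` is not zero, then two different characters of `𝔤` on `H_1(A, ℂ)` given by CM types agree
on `𝔥`, and the commutant of `𝔥` is larger than that of `𝔤`. So `R = 0`. Now let `σ : ℂ → ℂ` be additive, and
let `x ∈ U`. The replica, for `σ`, of a central element of `𝔥` above `x` shows that the numbers
`σ(∑_{s ∈ Φ} s(x))`, for all CM types `Φ`, are the values of an element of `U ⊗ ℂ`, and this is the function
`s ↦ σ(s(x))`. If a linear form vanishes on `U ⊗ ℂ`, then it vanishes on all these functions, and since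
there are no rational relations, it vanishes on all odd functions. So `U = E^-`, and `𝔥 = 𝔤`.
-/

open Module Matrix Pool.Agent.Y102 Pool.Agent.R917.OM Pool.Agent.R917.DT
  Pool.Agent.Results.MP_5d33ca_ag.OneMotivesMumfordTate

noncomputable section

namespace Pool.Agent.Results.MP_caab05_ag.CodimensionTwo

/-! ### The hypotheses -/

/-- The derived algebra `[𝔤, 𝔤]` of the Lie algebra of the Hodge group. -/
def derived {g : ℕ} (A : AbVar g) : Submodule ℚ (Mat g) :=
  Submodule.span ℚ {Z | ∃ X Y, InLie A X ∧ InLie A Y ∧ Z = X * Y - Y * X}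

/-- The abelian variety is rigid: every Lie subalgebra of the Lie algebra `𝔤` of the Hodge group which
acts semisimply on the homology, with the same commutant, contains `[𝔤, 𝔤]`. -/
def IsRigid {g : ℕ} (A : AbVar g) : Prop :=
  ∀ 𝔥 : Submodule ℚ (Mat g), IsSubalgebra A 𝔥 → IsSemisimple 𝔥 → SameCommutant A 𝔥 →
    ∀ X Y, InLie A X → InLie A Y → X * Y - Y * X ∈ 𝔥

/-- The centre of the Hodge group is determined by the endomorphisms: the Lie algebra `𝔤` has no proper
algebraic subalgebra `𝔥` which contains `[𝔤, 𝔤]`, acts semisimply on the homology and has the same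
commutant. -/
def CentreDetermined {g : ℕ} (A : AbVar g) : Prop :=
  ∀ 𝔥 : Submodule ℚ (Mat g), IsSubalgebra A 𝔥 → IsReplicaClosed 𝔥 → IsSemisimple 𝔥 →
    SameCommutant A 𝔥 → derived A ≤ 𝔥 → ∀ X, InLie A X → X ∈ 𝔥

/-- There is no factor of type IV: the Rosati involution is trivial on the centre of the algebra of the
endomorphisms, that is, the centre contains no nonzero endomorphism which is skew-symmetric for the
polarization. -/
def NoFactorOfTypeIV {g : ℕ} (A : AbVar g) : Prop :=
  ∀ P, Planes.IsAlgebraicEnd A P → (∀ Q, Planes.IsAlgebraicEnd A Q → P * Q = Q * P) →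
    (∀ u v : A.H1, A.om (P u) v + A.om u (P v) = 0) → P = 0

section field

variable {E : Type} [Field E] [NumberField E]

/-- `Φ` is a CM type: it contains exactly one of `s` and its complex conjugate `s ∘ c`, for every
embedding `s`. -/
def IsCMType (c : E ≃+* E) (Φ : Finset (E →+* ℂ)) : Prop := ∀ s, s ∈ Φ ↔ s.comp (c : E →+* E) ∉ Φ

/-- The field `E` is ternary: every nonzero space of odd functions on the set of the embeddings, with
rational values, which is stable under the Galois group, contains a nonzero function with values in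
`{0, 1, -1}`. -/
def IsTernary (c : E ≃+* E) : Prop :=
  ∀ V : Submodule ℚ ((E →+* ℂ) → ℚ), (∀ f ∈ V, ∀ s, f (s.comp (c : E →+* E)) = -f s) →
    (∀ f ∈ V, ∀ τ : ℂ ≃+* ℂ, (fun s => f ((τ : ℂ →+* ℂ).comp s)) ∈ V) → V ≠ ⊥ →
      ∃ f ∈ V, f ≠ 0 ∧ ∀ s, f s = 0 ∨ f s = 1 ∨ f s = -1

/-- `c` is the complex conjugation on `E` (all embeddings are compatible with it, so that `E` is a CM
field, or totally real and `c` is the identity), and `E` is abelian over `ℚ`, or ternary. -/
structure IsGoodField (c : E ≃+* E) : Prop where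
  conj : ∀ (s : E →+* ℂ) (x : E), s (c x) = starRingEnd ℂ (s x)
  good : (IsGalois ℚ E ∧ ∀ s t : E ≃ₐ[ℚ] E, s * t = t * s) ∨ IsTernary c

/-- The Lie algebra `𝔤` of the Hodge group of `A` modulo its derived algebra is the space of the elements
`x` of `E` with `c(x) = -x`, by the linear map `p`, and for every CM type `Φ` the character
`X ↦ ∑_{s ∈ Φ} s(p(X))` of `𝔤` occurs in `H_1(A, ℂ)`: the vector `v Φ` is an eigenvector. -/
structure IsCentre {g : ℕ} (A : AbVar g) (c : E ≃+* E) (p : Mat g →ₗ[ℚ] E)
    (v : Finset (E →+* ℂ) → Fin (2 * g) → ℂ) : Prop where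
  odd : ∀ X, InLie A X → c (p X) = -p X
  onto : ∀ x, c x = -x → ∃ X, InLie A X ∧ p X = x
  kernel : ∀ X, InLie A X → p X = 0 → X ∈ derived A
  nonzero : ∀ Φ, IsCMType c Φ → v Φ ≠ 0
  character : ∀ Φ, IsCMType c Φ → ∀ X, InLie A X → cplx X *ᵥ v Φ = (∑ s ∈ Φ, s (p X)) • v Φ

end field

/-- The Lie algebra `𝔤` of the Hodge group of `A` modulo its derived algebra is the space of the elements
`x` with `c(x) = -x` of an abelian, or ternary, field, and all characters of `𝔤` given by the CM types
occur in the homology. -/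
def HasCMCentre {g : ℕ} (A : AbVar g) : Prop :=
  ∃ (E : Type) (_ : Field E) (_ : NumberField E) (c : E ≃+* E) (p : Mat g →ₗ[ℚ] E)
    (v : Finset (E →+* ℂ) → Fin (2 * g) → ℂ), IsGoodField c ∧ IsCentre A c p v

/-! ### The four statements -/

/-- (H) The de Rham-Betti classes in all `H^1(A)^{⊗ 2m}(m)` are Hodge classes. -/
def AllHodge {g : ℕ} (A : AbVar g) : Prop :=
  ∀ (m : ℕ) (φ : Form A m), IsDRB A φ → IsHodge A φ

/-- Four vectors, as a family with the indices of the variables of a form in `H^1(A)^{⊗ 4}(2)`. -/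
def four {g : ℕ} (A : AbVar g) (u v w x : A.H1) : Fin 2 × Fin 2 → A.H1 :=
  fun p => ![![u, v], ![w, x]] p.1 p.2

/-- (C) The de Rham-Betti classes in `Sym^2 (Sym^2 H^1(A))(2)` are Hodge classes: these are the forms
`φ(u, v, w, x)` in four variables which do not change if `u`, `v` are exchanged, or if `u, v` and `w, x` are
exchanged. -/
def QuarticHodge {g : ℕ} (A : AbVar g) : Prop :=
  ∀ φ : Form A 2, (∀ u v w x, φ (four A u v w x) = φ (four A v u w x) ∧
    φ (four A u v w x) = φ (four A w x u v)) → IsDRB A φ → IsHodge A φ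

/-- (T) For every 1-motive over a factor `A'` of `A`, every algebraic group `G` over `ℚ` with a torsor over
`ℚ̄` which contains the comparison isomorphism contains the Mumford-Tate group of the 1-motive. -/
def OneMotiveTorsors {g : ℕ} (A : AbVar g) : Prop :=
  ∀ (g' n s : ℕ) (A' : AbVarG g'), IsFactor A'.toAbVar A → ∀ (u : Fin n → Fin g' → ℂ)
    (v : Fin s → Fin g' → ℂ) (ℓ : Fin n → Fin s → ℂ), IsOneMotive A' u v ℓ →
    ∀ G : Subgroup (GL (Betti g' n s) ℂ), IsAlgebraicSubgroup G → ContainsPeriods A' u v ℓ G →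
      mumfordTate A' u v ℓ ≤ G

/-- (P) The same for the homology of `A`, the 1-motive without points (`n = s = 0`). -/
def AbelianTorsor {g : ℕ} (A : AbVarG g) : Prop :=
  ∀ (u : Fin 0 → Fin g → ℂ) (v : Fin 0 → Fin g → ℂ) (ℓ : Fin 0 → Fin 0 → ℂ)
    (G : Subgroup (GL (Betti g 0 0) ℂ)), IsAlgebraicSubgroup G → ContainsPeriods A u v ℓ G →
      mumfordTate A u v ℓ ≤ G

/-! ### Proofs -/

section prf

open Pool.Agent.NH88.CM

variable {g : ℕ} {A : AbVar g}

theorem full_comap {𝔥 : Submodule ℚ (Mat g)} (hsub : IsSubalgebra A 𝔥) (hsemi : IsSemisimple 𝔥)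
    (hcomm : SameCommutant A 𝔥) :
    A.Full (𝔥.comap (LinearMap.toMatrix' : _ ≃ₗ[ℚ] Mat g).toLinearMap) := by
  refine ⟨fun Y hY => (inLie_mat A).1 (hsub.1 _ hY), fun Y hY Z hZ => ?_, fun U hU => ?_,
    fun P hP Y hY => ?_⟩
  · change mat A (Y * Z - Z * Y) ∈ 𝔥
    rw [mat_br]
    exact hsub.2 _ hY _ hZ
  · obtain ⟨U', h1, h2⟩ := hsemi U (fun Y hY u hu => by
      obtain ⟨Y, rfl⟩ := mat_surj A Y
      rw [mat_mulVec]
      exact hU Y hY u hu)
    refine ⟨U', fun Y hY u hu => ?_, h2⟩
    have h3 := h1 _ hY u hu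
    rwa [show (LinearMap.toMatrix' : _ ≃ₗ[ℚ] Mat g).toLinearMap Y = mat A Y from rfl,
      mat_mulVec] at h3
  · refine mat_inj A ?_
    rw [mat_mul, mat_mul]
    refine hcomm _ (fun Z hZ => ?_) _ ((inLie_mat A).2 hY)
    obtain ⟨Z, rfl⟩ := mat_surj A Z
    rw [← mat_mul, ← mat_mul]
    exact congrArg (mat A) (hP Z hZ)

theorem rigid_of_rgd (h : Rgd A) : IsRigid A := by
  intro 𝔥 hsub hsemi hcomm X Y hX hY
  obtain ⟨X, rfl⟩ := mat_surj A X
  obtain ⟨Y, rfl⟩ := mat_surj A Y
  have h1 := h _ (full_comap hsub hsemi hcomm)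
    (Submodule.subset_span ⟨X, (inLie_mat A).1 hX, Y, (inLie_mat A).1 hY, rfl⟩)
  rw [← mat_br]
  exact h1

theorem rgd_of_rigid (hA : IsRigid A) : Rgd A := by
  intro 𝔥 h
  let 𝔥' : Submodule ℚ (Mat g) := 𝔥.map (LinearMap.toMatrix' : _ ≃ₗ[ℚ] Mat g).toLinearMap
  have hmem : ∀ X : Module.End ℚ A.H1, mat A X ∈ 𝔥' ↔ X ∈ 𝔥 := by
    intro X
    constructor
    · rintro ⟨Y, hY, hYX⟩
      rw [← mat_inj A hYX]
      exact hY
    · intro hX
      exact ⟨X, hX, rfl⟩
  unfold der
  rw [Submodule.span_le]
  rintro _ ⟨X, hX, Y, hY, rfl⟩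
  change X * Y - Y * X ∈ 𝔥
  rw [← hmem, mat_br]
  refine hA 𝔥' ⟨?_, ?_⟩ ?_ ?_ _ _ ((inLie_mat A).2 hX) ((inLie_mat A).2 hY)
  · rintro _ ⟨Y, hY, rfl⟩
    exact (inLie_mat A).2 (h.le hY)
  · rintro _ ⟨Y, hY, rfl⟩ _ ⟨Z, hZ, rfl⟩
    have h1 := (hmem (Y * Z - Z * Y)).2 (h.br Y hY Z hZ)
    rw [mat_br] at h1
    exact h1
  · intro U hU
    obtain ⟨U', h1, h2⟩ := h.semi U (fun Y hY u hu => by
      have h3 := hU _ ((hmem Y).2 hY) u hu
      rwa [mat_mulVec] at h3)
    refine ⟨U', ?_, h2⟩
    rintro _ ⟨Y, hY, rfl⟩ u hu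
    have h3 := h1 Y hY u hu
    rwa [← mat_mulVec] at h3
  · intro P hP Y hY
    obtain ⟨P, rfl⟩ := mat_surj A P
    obtain ⟨Y, rfl⟩ := mat_surj A Y
    rw [← mat_mul, ← mat_mul]
    congr 1
    refine h.comm P (fun Z hZ => mat_inj A ?_) Y ((inLie_mat A).1 hY)
    rw [mat_mul, mat_mul]
    exact hP _ ((hmem Z).2 hZ)

theorem mem_derived {X : Module.End ℚ A.H1} : mat A X ∈ derived A ↔ X ∈ der A.NA := by
  have h1 : derived A = (der A.NA).map (LinearMap.toMatrix' : _ ≃ₗ[ℚ] Mat g).toLinearMap := by
    unfold derived der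
    rw [Submodule.map_span]
    congr 1
    ext Z
    constructor
    · rintro ⟨X, Y, hX, hY, rfl⟩
      obtain ⟨X, rfl⟩ := mat_surj A X
      obtain ⟨Y, rfl⟩ := mat_surj A Y
      exact ⟨_, ⟨X, (inLie_mat A).1 hX, Y, (inLie_mat A).1 hY, rfl⟩, mat_br A X Y⟩
    · rintro ⟨_, ⟨X, hX, Y, hY, rfl⟩, rfl⟩
      exact ⟨mat A X, mat A Y, (inLie_mat A).2 hX, (inLie_mat A).2 hY, mat_br A X Y⟩
  rw [h1]
  constructor
  · rintro ⟨Y, hY, hYX⟩
    rw [← mat_inj A hYX]
    exact hY
  · intro hX
    exact ⟨X, hX, rfl⟩

/-- Abelian fields are ternary. -/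
theorem ternary_of_abelian {E : Type} [Field E] [NumberField E] (c : E ≃+* E)
    (h : IsGalois ℚ E ∧ ∀ s t : E ≃ₐ[ℚ] E, s * t = t * s) : IsTernary c := by
  have := h.1
  exact G.tern_of_abelian h.2

/-- Fields for which the Galois group acts irreducibly on the odd functions are ternary. -/
theorem ternary_of_irreducible {E : Type} [Field E] [NumberField E] {c : E ≃+* E}
    (hc : ∀ (s : E →+* ℂ) (x : E), s (c x) = starRingEnd ℂ (s x)) (h1 : ∃ x, c x ≠ x)
    (h : ∀ V : Submodule ℚ ((E →+* ℂ) → ℚ), (∀ f ∈ V, ∀ s, f (s.comp (c : E →+* E)) = -f s) →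
      (∀ f ∈ V, ∀ τ : ℂ ≃+* ℂ, (fun s => f ((τ : ℂ →+* ℂ).comp s)) ∈ V) → V ≠ ⊥ →
      ∀ f : (E →+* ℂ) → ℚ, (∀ s, f (s.comp (c : E →+* E)) = -f s) → f ∈ V) : IsTernary c := by
  refine G.tern_of_irreducible (fun s h2 => ?_) (fun x => ?_) h
  · obtain ⟨x, hx⟩ := h1
    exact hx (s.injective (congrArg (fun u : E →+* ℂ => u x) h2))
  · obtain ⟨s⟩ : Nonempty (E →+* ℂ) := by
      rw [← Fintype.card_pos_iff, NumberField.Embeddings.card]
      exact Module.finrank_pos
    refine s.injective ?_
    rw [hc, hc, Complex.conj_conj]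

section field

variable {E : Type} [Field E] [NumberField E] {c : E ≃+* E}

theorem tern_of (h : IsGoodField c) : G.Tern E c := by
  rcases h.good with h1 | h1
  · exact ternary_of_abelian c h1
  · exact h1

theorem inv_of (h : IsGoodField c) (x : E) : c (c x) = x := by
  obtain ⟨s⟩ : Nonempty (E →+* ℂ) := by
    rw [← Fintype.card_pos_iff, NumberField.Embeddings.card]
    exact Module.finrank_pos
  refine s.injective ?_
  rw [h.conj, h.conj, Complex.conj_conj]

theorem cenD_of {p : Mat g →ₗ[ℚ] E} {v : Finset (E →+* ℂ) → Fin (2 * g) → ℂ}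
    (hE : IsGoodField c) (h : IsCentre A c p v) :
    G.CenD A c (p.comp (LinearMap.toMatrix' : _ ≃ₗ[ℚ] Mat g).toLinearMap) v := by
  refine ⟨tern_of hE, inv_of hE, fun X hX => h.odd _ ((inLie_mat A).2 hX), fun x hx => ?_,
    fun X hX h0 => ?_, h.nonzero, fun Φ hΦ X hX => ?_⟩
  · obtain ⟨X, hX, hXx⟩ := h.onto x hx
    obtain ⟨X, rfl⟩ := mat_surj A X
    exact ⟨X, (inLie_mat A).1 hX, hXx⟩
  · exact mem_derived.1 (h.kernel _ ((inLie_mat A).2 hX) h0)
  · have h1 := h.character Φ hΦ _ ((inLie_mat A).2 hX)
    rw [cplx_mat] at h1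
    exact h1

theorem centre_of_cenD {lam : Module.End ℚ A.H1 →ₗ[ℚ] E}
    {v : Finset (E →+* ℂ) → Fin (2 * g) → ℂ} (h : G.CenD A c lam v) :
    IsCentre A c (lam.comp (LinearMap.toMatrix' : _ ≃ₗ[ℚ] Mat g).symm.toLinearMap) v := by
  have e : ∀ X : Module.End ℚ A.H1,
      (lam.comp (LinearMap.toMatrix' : _ ≃ₗ[ℚ] Mat g).symm.toLinearMap) (mat A X) = lam X := by
    intro X
    exact congrArg lam ((LinearMap.toMatrix' : _ ≃ₗ[ℚ] Mat g).symm_apply_apply X)
  refine ⟨fun X hX => ?_, fun x hx => ?_, fun X hX h0 => ?_, h.nz, fun Φ hΦ X hX => ?_⟩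
  · obtain ⟨X, rfl⟩ := mat_surj A X
    rw [e]
    exact h.odd X ((inLie_mat A).1 hX)
  · obtain ⟨X, hX, hXx⟩ := h.surj x hx
    exact ⟨mat A X, (inLie_mat A).2 hX, (e X).trans hXx⟩
  · obtain ⟨X, rfl⟩ := mat_surj A X
    rw [e] at h0
    exact mem_derived.2 (h.ker X ((inLie_mat A).1 hX) h0)
  · obtain ⟨X, rfl⟩ := mat_surj A X
    rw [e, cplx_mat]
    exact h.eig Φ hΦ X ((inLie_mat A).1 hX)

end field

/-- Subalgebras in terms of endomorphisms. -/
theorem cen_of (hA : CentreDetermined A) {𝔥 : Submodule ℚ (Module.End ℚ A.H1)} (h : A.Full 𝔥)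
    (hRC : RC 𝔥) (hder : der A.NA ≤ 𝔥) : A.NA ≤ 𝔥 := by
  let 𝔥' : Submodule ℚ (Mat g) := 𝔥.map (LinearMap.toMatrix' : _ ≃ₗ[ℚ] Mat g).toLinearMap
  have hmem : ∀ X : Module.End ℚ A.H1, mat A X ∈ 𝔥' ↔ X ∈ 𝔥 := by
    intro X
    constructor
    · rintro ⟨Y, hY, hYX⟩
      rw [← mat_inj A hYX]
      exact hY
    · intro hX
      exact ⟨X, hX, rfl⟩
  intro X hX
  rw [← hmem]
  refine hA 𝔥' ⟨?_, ?_⟩ ?_ ?_ ?_ ?_ _ ((inLie_mat A).2 hX)
  · rintro _ ⟨Y, hY, rfl⟩
    exact (inLie_mat A).2 (h.le hY)
  · rintro _ ⟨Y, hY, rfl⟩ _ ⟨Z, hZ, rfl⟩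
    have h1 := (hmem (Y * Z - Z * Y)).2 (h.br Y hY Z hZ)
    rw [mat_br] at h1
    exact h1
  · rintro _ ⟨Y, hY, rfl⟩ S σ Q hS hQ
    rw [span_mat A 𝔥 𝔥' hmem]
    change Polynomial.aeval (cplx (mat A Y)) _ = 0 at hS
    change Polynomial.aeval (cplx (mat A Y)) Q ∈ _
    rw [cplx_mat] at hS ⊢
    exact rc_iff.1 hRC Y hY S σ Q hS hQ
  · intro U hU
    obtain ⟨U', h1, h2⟩ := h.semi U (fun Y hY u hu => by
      have h3 := hU _ ((hmem Y).2 hY) u hu
      rwa [mat_mulVec] at h3)
    refine ⟨U', ?_, h2⟩
    rintro _ ⟨Y, hY, rfl⟩ u hu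
    have h3 := h1 Y hY u hu
    rwa [← mat_mulVec] at h3
  · intro P hP Y hY
    obtain ⟨P, rfl⟩ := mat_surj A P
    obtain ⟨Y, rfl⟩ := mat_surj A Y
    rw [← mat_mul, ← mat_mul]
    congr 1
    refine h.comm P (fun Z hZ => mat_inj A ?_) Y ((inLie_mat A).1 hY)
    rw [mat_mul, mat_mul]
    exact hP _ ((hmem Z).2 hZ)
  · intro Z hZ
    obtain ⟨Z, rfl⟩ := mat_surj A Z
    exact (hmem Z).2 (hder (mem_derived.1 hZ))

theorem centreDetermined_of (hA : ∀ 𝔥 : Submodule ℚ (Module.End ℚ A.H1), A.Full 𝔥 → RC 𝔥 →
    der A.NA ≤ 𝔥 → A.NA ≤ 𝔥) : CentreDetermined A := by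
  intro 𝔥 hsub hrc hsemi hcomm hder X hX
  obtain ⟨X, rfl⟩ := mat_surj A X
  have hmem : ∀ X : Module.End ℚ A.H1, mat A X ∈ 𝔥 ↔
      X ∈ 𝔥.comap (LinearMap.toMatrix' : _ ≃ₗ[ℚ] Mat g).toLinearMap := fun _ => Iff.rfl
  refine hA _ (full_comap hsub hsemi hcomm) (rc_iff.2 fun Y hY S σ Q hS hQ => ?_)
    (fun Z hZ => hder (mem_derived.2 hZ)) ((inLie_mat A).1 hX)
  rw [← span_mat A (𝔥.comap (LinearMap.toMatrix' : _ ≃ₗ[ℚ] Mat g).toLinearMap) 𝔥 hmem,
    ← cplx_mat]
  rw [← cplx_mat] at hS
  exact hrc _ hY S σ Q hS hQ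

/-- **The centre is given by an abelian, or ternary, field.** -/
theorem centreDetermined_of_cmCentre (hC : HasCMCentre A) : CentreDetermined A := by
  obtain ⟨E, _, _, c, p, v, hE, h⟩ := hC
  exact centreDetermined_of fun _ hF hRC hder => (cenD_of hE h).le_of_der hF hRC hder

/-- **There are no factors of type IV.** -/
theorem centreDetermined_of_noTypeIV (h : NoFactorOfTypeIV A) : CentreDetermined A :=
  centreDetermined_of fun _ _ _ hder => (perfect_of_noTypeIV fun P hP hQ hs =>
    h P (A.mem_EA.1 hP) (fun Q hQ' => hQ Q (A.mem_EA.2 hQ')) hs).trans hder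

theorem det_of (hR : IsRigid A) (hC : CentreDetermined A) : Det A := fun 𝔥 hF hRC =>
  cen_of hC hF hRC (rgd_of_rigid hR 𝔥 hF)

/-- Rigid abelian varieties with determined centre are determined by their endomorphisms. -/
theorem determined (hR : IsRigid A) (hC : CentreDetermined A) : Determined A :=
  determined_of_det A (det_of hR hC)

theorem detX_of_quarticHodge (hC : CentreDetermined A) (h : QuarticHodge A) : DetX A :=
  fun _ hle hbr h0 hRC => cen_of hC (Pool.Agent.R917.full_of_X0 A hle hbr h0) hRC
    (der_le_of_two (fun φ h1 h2 => h φ h1 h2) hle hbr h0)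

theorem torsors_of_detX (h : DetX A) : OneMotiveTorsors A := fun g' n s A' hA' u v ℓ hM G hG hP =>
  torsor_of_detX h g' n s A' hA' u v ℓ hM G hG hP

theorem torsors_of_allHodge (h : AllHodge A) : OneMotiveTorsors A :=
  torsors_of_detX (detX_of_all h)

end prf

/-! ### Examples -/

section examples

open Pool.Agent.NH88.CM Pool.Agent.NH25.PK Pool.Agent.W516.DR Pool.Agent.H204R3.GP
  Pool.Agent.W516.KC Pool.Agent.H204R3.SP Pool.Agent.TH119.MX

/-- The projectors `P Φ`, for the sets `Φ` of embeddings, decompose the homology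
`H_1(D, ℂ)`; `P Φ` is not zero if and only if `Φ` is a CM type, and the Lie algebra of the Hodge group is
the space of the elements `x` of the field `E` with `c(x) = -x`, by the map `W`, where `x` acts on the
image of `P Φ` by `∑_{s ∈ Φ} s(x)`. -/
structure IsAllTypes {g : ℕ} {E : Type} [Field E] [NumberField E] (D : AbVar g)
    (c : E ≃+* E) (W : E →ₗ[ℚ] Mat g)
    (P : Finset (E →+* ℂ) → Matrix (Fin (2 * g)) (Fin (2 * g)) ℂ) : Prop where
  projector : ∀ Φ, P Φ * P Φ = P Φ
  orthogonal : ∀ Φ Ψ, Φ ≠ Ψ → P Φ * P Ψ = 0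
  sum : ∑ Φ, P Φ = 1
  types : ∀ Φ, P Φ ≠ 0 ↔ IsCMType c Φ
  lie : ∀ X, InLie D X ↔ ∃ x, c x = -x ∧ X = W x
  action : ∀ x, c x = -x → cplx (W x) = ∑ Φ : Finset (E →+* ℂ), (∑ s ∈ Φ, s x) • P Φ

/-- The Lie algebra of the Hodge group of `D` is the space of the elements `x` with `c(x) = -x` of an
abelian, or ternary, field, acting on the homology by the characters given by the CM types, and all CM
types occur. -/
def AllTypes {g : ℕ} (D : AbVar g) : Prop :=
  ∃ (E : Type) (_ : Field E) (_ : NumberField E) (c : E ≃+* E) (W : E →ₗ[ℚ] Mat g)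
    (P : Finset (E →+* ℂ) → Matrix (Fin (2 * g)) (Fin (2 * g)) ℂ),
    IsGoodField c ∧ IsAllTypes D c W P

theorem allT_of {g : ℕ} {D : AbVar g} {E : Type} [Field E] [NumberField E]
    {c : E ≃+* E} {W : E →ₗ[ℚ] Mat g}
    {P : Finset (E →+* ℂ) → Matrix (Fin (2 * g)) (Fin (2 * g)) ℂ} (hE : IsGoodField c)
    (h : IsAllTypes D c W P) :
    G.AllT D c P ((LinearMap.toMatrix' : _ ≃ₗ[ℚ] Mat g).symm.toLinearMap.comp W) := by
  have e : ∀ x, mat D (((LinearMap.toMatrix' : _ ≃ₗ[ℚ] Mat g).symm.toLinearMap.comp W) x) = W x :=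
    fun x => (LinearMap.toMatrix' : _ ≃ₗ[ℚ] Mat g).apply_symm_apply (W x)
  refine ⟨tern_of hE, inv_of hE, ⟨h.projector, h.orthogonal, h.sum⟩, h.types, fun X => ?_,
    fun x hx => ?_⟩
  · rw [← inLie_mat, h.lie]
    constructor
    · rintro ⟨x, hx, hX⟩
      exact ⟨x, hx, mat_inj D (hX.trans (e x).symm)⟩
    · rintro ⟨x, hx, rfl⟩
      exact ⟨x, hx, e x⟩
  · rw [← cplx_mat, e, h.action x hx]
    rfl

/-- **Abelian varieties with complex multiplication by abelian fields.** -/
theorem allTypes {g : ℕ} {D : AbVar g} (h : AllTypes D) : IsRigid D ∧ HasCMCentre D := by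
  obtain ⟨E, _, _, c, W, P, hE, h⟩ := h
  have h1 := allT_of hE h
  obtain ⟨lam, v, h2⟩ := h1.cen
  exact ⟨rigid_of_rgd (G.rgd_comm h1.commute), E, _, _, c, _, v, hE, centre_of_cenD h2⟩

/-- `A` is isogenous to the product of `B` and `C`, by the inclusions `f`, `f'` and the projections
`p`, `p'`. -/
structure IsProduct {g g₁ g₂ : ℕ} (A : AbVar g) (B : AbVar g₁) (C : AbVar g₂)
    (f : B.H1 →ₗ[ℚ] A.H1) (p : A.H1 →ₗ[ℚ] B.H1) (f' : C.H1 →ₗ[ℚ] A.H1) (p' : A.H1 →ₗ[ℚ] C.H1) :
    Prop where
  hom_f : IsHomomorphism B A f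
  hom_p : IsHomomorphism A B p
  hom_f' : IsHomomorphism C A f'
  hom_p' : IsHomomorphism A C p'
  pf : ∀ w, p (f w) = w
  pf' : ∀ w, p' (f' w) = w
  sum : ∀ w, f (p w) + f' (p' w) = w

/-- The centre of the Hodge group of `B` is controlled by `C`: the elements of the Lie algebra of the
Hodge group of `A` which vanish on `C` are in the derived algebra for `B`. -/
def IsControlled {g g₁ g₂ : ℕ} (A : AbVar g) (B : AbVar g₁) (C : AbVar g₂)
    (f : B.H1 →ₗ[ℚ] A.H1) (p : A.H1 →ₗ[ℚ] B.H1) (f' : C.H1 →ₗ[ℚ] A.H1) (p' : A.H1 →ₗ[ℚ] C.H1) :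
    Prop :=
  ∀ X : Mat g, InLie A X → (∀ w, p' (X *ᵥ f' w) = 0) → ∃ Y ∈ derived B, ∀ w, p (X *ᵥ f w) = Y *ᵥ w

section prd

variable {g g₁ g₂ : ℕ} {A : AbVar g} {B : AbVar g₁} {C : AbVar g₂}
  {f : B.H1 →ₗ[ℚ] A.H1} {p : A.H1 →ₗ[ℚ] B.H1} {f' : C.H1 →ₗ[ℚ] A.H1} {p' : A.H1 →ₗ[ℚ] C.H1}

theorem prd_of (h : IsProduct A B C f p f' p') : Prd A B C f p f' p' :=
  ⟨⟨⟨h.hom_f.1, h.hom_f.2⟩, ⟨h.hom_p.1, h.hom_p.2⟩, h.pf⟩,
    ⟨⟨h.hom_f'.1, h.hom_f'.2⟩, ⟨h.hom_p'.1, h.hom_p'.2⟩, h.pf'⟩, h.sum⟩

/-- **Products** of rigid abelian varieties and of abelian varieties with complex multiplication. -/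
theorem product (h : IsProduct A B C f p f' p') (hB : IsRigid B) (hC : AllTypes C)
    (hZ : IsControlled A B C f p f' p') : IsRigid A ∧ HasCMCentre A := by
  obtain ⟨E, _, _, c, W, P, hE, h0⟩ := hC
  have h1 := allT_of hE h0
  obtain ⟨lam, v, h2⟩ := h1.cen
  obtain ⟨h3, h4⟩ := G.cen_prod (prd_of h) h1.commute (rgd_of_rigid hB) h2 fun X hX h5 => by
    obtain ⟨Y, hY, h6⟩ := hZ (mat A X) ((inLie_mat A).2 hX) fun w => by
      rw [mat_mulVec]
      exact congrArg (fun T : Module.End ℚ C.H1 => T w) h5
    obtain ⟨Y, rfl⟩ := mat_surj B Y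
    have h7 : rs f p X = Y := by
      refine LinearMap.ext fun w => ?_
      have h8 := h6 w
      rw [mat_mulVec, mat_mulVec] at h8
      exact h8
    rw [h7]
    exact mem_derived.1 hY
  exact ⟨rigid_of_rgd h3, E, _, _, c, _, _, hE, centre_of_cenD h4⟩

/-- The derived algebras have no common quotients except zero, in the form given by the lemma of
Goursat: the only Lie subalgebra of the product with surjective projections is the product. -/
def NoCommonQuotients {g₁ g₂ : ℕ} (B : AbVar g₁) (C : AbVar g₂) : Prop :=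
  ∀ 𝔰 : Submodule ℚ (Mat g₁ × Mat g₂),
    (∀ Z ∈ 𝔰, Z.1 ∈ derived B ∧ Z.2 ∈ derived C) → (∀ Z ∈ 𝔰, ∀ W ∈ 𝔰, Z * W - W * Z ∈ 𝔰) →
    (∀ X ∈ derived B, ∃ Y, (X, Y) ∈ 𝔰) → (∀ Y ∈ derived C, ∃ X, (X, Y) ∈ 𝔰) →
    ∀ X ∈ derived B, (X, 0) ∈ 𝔰

theorem dsj_of (h : NoCommonQuotients B C) : Dsj B C := by
  intro 𝔰 h1 h2 h3 h4 X hX
  let e : (Module.End ℚ B.H1 × Module.End ℚ C.H1) ≃ₗ[ℚ] (Mat g₁ × Mat g₂) :=
    LinearEquiv.prodCongr (LinearMap.toMatrix' : _ ≃ₗ[ℚ] Mat g₁) (LinearMap.toMatrix' : _ ≃ₗ[ℚ] Mat g₂)
  have he : ∀ X Y, e (X, Y) = (mat B X, mat C Y) := fun X Y => rfl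
  have hmem : ∀ X Y, (mat B X, mat C Y) ∈ 𝔰.map e.toLinearMap ↔ (X, Y) ∈ 𝔰 := by
    intro X Y
    constructor
    · rintro ⟨Z, hZ, hZX⟩
      have h5 : e Z = e (X, Y) := hZX
      rwa [e.injective h5] at hZ
    · intro hZ
      exact ⟨_, hZ, rfl⟩
  have h5 := h (𝔰.map e.toLinearMap) ?_ ?_ ?_ ?_ _ (mem_derived.2 hX)
  · have h6 : mat C (0 : Module.End ℚ C.H1) = 0 :=
      map_zero (LinearMap.toMatrix' : _ ≃ₗ[ℚ] Mat g₂)
    rw [← h6, hmem] at h5
    exact h5
  · rintro _ ⟨Z, hZ, rfl⟩
    exact ⟨mem_derived.2 (h1 Z hZ).1, mem_derived.2 (h1 Z hZ).2⟩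
  · rintro _ ⟨Z, hZ, rfl⟩ _ ⟨W, hW, rfl⟩
    refine ⟨Z * W - W * Z, h2 Z hZ W hW, Prod.ext ?_ ?_⟩
    · exact mat_br B Z.1 W.1
    · exact mat_br C Z.2 W.2
  · intro X hX
    obtain ⟨X, rfl⟩ := mat_surj B X
    obtain ⟨Y, hY⟩ := h3 X (mem_derived.1 hX)
    exact ⟨mat C Y, (hmem X Y).2 hY⟩
  · intro Y hY
    obtain ⟨Y, rfl⟩ := mat_surj C Y
    obtain ⟨X, hX⟩ := h4 Y (mem_derived.1 hY)
    exact ⟨mat B X, (hmem X Y).2 hX⟩

/-- **Products of rigid abelian varieties.** -/
theorem rigid_of_product (h : IsProduct A B C f p f' p') (hB : IsRigid B) (hC : IsRigid C)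
    (hd : NoCommonQuotients B C) : IsRigid A :=
  rigid_of_rgd (rgd_prd (prd_of h) (rgd_of_rigid hB) (rgd_of_rigid hC) (dsj_of hd))

/-- The homology `H_1(B, ℂ)` is a sum of subspaces of dimension at most three which are stable under
the Lie algebra of the Hodge group of `B`. -/
def HasSmallBlocks {g : ℕ} (B : AbVar g) : Prop :=
  ∃ (n : ℕ) (V : Fin n → Submodule ℂ (Fin (2 * g) → ℂ)),
    (∀ k, finrank ℂ (V k) ≤ 3) ∧ ⨆ k, V k = ⊤ ∧
      ∀ X : Mat g, InLie B X → ∀ k, ∀ v ∈ V k, cplx X *ᵥ v ∈ V k

/-- The homology `H_1(C, ℂ)` is a direct sum of spaces `U_i = ℂ^(d i)`, with projections `P i` and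
inclusions `Q i`, and the complex Lie algebra of the Hodge group of `C` is the sum of orthogonal Lie
algebras `so(r i)`, with `r i ≥ 6`, the summand `so(r i)` acting on `U_i` by a sum of spin
representations: the `E i a` are the generators of a Clifford algebra acting on `U_i`, and
`so(r i)` is spanned by the products of two different generators. -/
def TypeSpinSum {g : ℕ} (C : AbVar g) : Prop :=
  ∃ (m : ℕ) (d r : Fin m → ℕ) (P : ∀ i, Matrix (Fin (d i)) (Fin (2 * g)) ℂ)
    (Q : ∀ i, Matrix (Fin (2 * g)) (Fin (d i)) ℂ)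
    (E : ∀ i, Fin (r i) → Matrix (Fin (d i)) (Fin (d i)) ℂ),
    (∀ i, 0 < d i ∧ 6 ≤ r i) ∧
    (∀ i, P i * Q i = 1) ∧ (∀ i j, i ≠ j → P i * Q j = 0) ∧ ∑ i, Q i * P i = 1 ∧
    (∀ i a, E i a * E i a = 1) ∧ (∀ i a b, a ≠ b → E i a * E i b = -(E i b * E i a)) ∧
    lieC C = Submodule.span ℂ {Y | ∃ i a b, a ≠ b ∧ Y = Q i * (E i a * E i b) * P i}

theorem small_of {g : ℕ} {B : AbVar g} (h : HasSmallBlocks B) : Small B := by
  obtain ⟨n, V, h1, h2, h3⟩ := h
  refine ⟨n, fun k => (V k).map (Pool.Agent.R918.eqv (2 * g)).toLinearMap, fun k => ?_, ?_, ?_⟩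
  · exact (Submodule.finrank_map_le _ _).trans (h1 k)
  · rw [← Submodule.map_iSup, h2, Submodule.map_top, LinearEquiv.range]
  · rintro X hX k _ ⟨v, hv, rfl⟩
    refine ⟨cplx (mat B X) *ᵥ v, h3 _ ((inLie_mat B).2 hX) k v hv, ?_⟩
    change Pool.Agent.R918.eqv (2 * g) (cplx (mat B X) *ᵥ v) = _
    rw [← Pool.Agent.R918.matE_eqv, cplx_mat, matE_toC]
    rfl

/-- **Products with Kuga-Satake varieties**, of arbitrary ranks `≥ 6`. -/
theorem rigid_of_typeSpinSum (h : IsProduct A B C f p f' p') (hB : IsRigid B)
    (hS : HasSmallBlocks B) (hC : TypeSpinSum C) : IsRigid A := by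
  obtain ⟨m, d, r, P, Q, E, h1, h2, h3, h4, h5, h6, h7⟩ := hC
  have hblk : Pool.Agent.R918.Sp.Blk P Q E := ⟨fun i => (h1 i).1, h2, h3, h4, h5, h6⟩
  rw [lieC_eq] at h7
  have hl : cx C.NA = Pool.Agent.R918.Sp.soB (Pool.Agent.R918.Sp.Pm P)
      (Pool.Agent.R918.Sp.Qm Q) (Pool.Agent.R918.Sp.Em E) := by
    rw [← map_lie, h7, Pool.Agent.R918.Sp.soB_eq]
  exact rigid_of_rgd (rgd_sum (prd_of h) (rgd_of_rigid hB) (small_of hS) hblk
    (fun i => (h1 i).2) hl)

end prd

variable {g : ℕ} {A : AbVar g}

/-- Products of elliptic curves and of abelian varieties with real or quaternion multiplication of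
maximal degree. -/
theorem rigid_of_planes (h : Planes.IsSumOfPlanes A) : IsRigid A := by
  obtain ⟨M, hM, ⟨S⟩⟩ := Planes.exists_classes A h
  refine rigid_of_rgd fun 𝔥 hF => ?_
  unfold der
  rw [Submodule.span_le]
  rintro _ ⟨X, hX, Y, hY, rfl⟩
  exact S.rig _ hF X hX Y hY

/-- The Kuga-Satake varieties for totally real fields. -/
theorem rigid_of_typeSpin (h : TypeSpin A) : IsRigid A := by
  obtain ⟨N, k, r, E, c, h3, h5, e1, e2, hc, hl⟩ := h
  rw [lieC_eq] at hl
  exact rigid_of_rgd fun 𝔥 hF => (Pool.Agent.R917.DT.full_NA (A := A)).der_le.trans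
    (hF.of_spinMat h3 h5 e1 e2 hc hl)

/-- The Lie algebra `𝔤 ⊗ ℂ` is a sum of `k` algebras `gl(W_σ)` with `W_σ` of even dimension, acting on
`H_1(A, ℂ)` by a multiple of the tensor product of the exterior algebras of the `W_σ`, twisted by the
inverses of the square roots of the determinants: the `a i` and `b i` are creation and annihilation
operators, each of them has one of `k` colours, each colour is used an even number of times, and
`𝔤 ⊗ ℂ` is spanned by the matrices `a i * b j - δ i j / 2`, `i` and `j` of the same colour. There is no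
condition on the centre. -/
def TypeUnitary {g : ℕ} (A : AbVar g) : Prop :=
  ∃ (n k : ℕ) (a b : Fin n → Matrix (Fin (2 * g)) (Fin (2 * g)) ℂ) (c : Fin n → Fin k),
    (∀ σ, Even (Finset.univ.filter fun j => c j = σ).card) ∧
    (∀ i j, a i * a j = -(a j * a i)) ∧ (∀ i j, b i * b j = -(b j * b i)) ∧
    (∀ i j, a i * b j + b j * a i = if i = j then 1 else 0) ∧
    lieC A = Submodule.span ℂ {Y | ∃ i j, c i = c j ∧
      Y = a i * b j - if i = j then (2⁻¹ : ℂ) • 1 else 0}

/-- The Kuga-Satake varieties for CM fields, of even rank. -/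
theorem rigid_of_typeUnitary (h : TypeUnitary A) : IsRigid A := by
  obtain ⟨n, k, a, b, c, hn, aa, bb, hab, hl⟩ := h
  have hev : ∀ i : Fin n, Even (Finset.univ.filter fun j => c j = c i).card := fun i => hn (c i)
  have hl' : Submodule.span ℂ {Y | ∃ X ∈ A.NA, Y = toC X} =
      Submodule.span ℂ {Y | ∃ i j, c i = c j ∧ Y = Pool.Agent.R912.gM a b i j} := by
    rw [← lieC_eq, hl]
    rfl
  refine rigid_of_rgd fun 𝔥 hF => ?_
  unfold der
  rw [Submodule.span_le]
  rintro _ ⟨X, hX, Y, hY, rfl⟩
  exact Pool.Agent.R912.full_unitary hF (Pool.Agent.R912.car_mat aa bb hab)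
    (Pool.Agent.R912.cx_NA_eq aa bb hab hev hl') hev hX hY

/-- Semisimple Hodge groups: the field is `ℚ`. -/
theorem centre_of_perfect (h : ∀ X, InLie A X → X ∈ derived A) : HasCMCentre A := by
  have hQ : ∀ x : ℚ, x = -x → x = 0 := fun x hx => by linarith
  refine ⟨ℚ, inferInstance, inferInstance, RingEquiv.refl ℚ, 0, 0, ⟨fun s x => ?_, Or.inl
    ⟨?_, fun s t => ?_⟩⟩, ⟨fun X _ => ?_, fun x hx => ⟨0, ?_, ?_⟩, fun X hX _ => h X hX,
    fun Φ hΦ => ?_, fun Φ hΦ => ?_⟩⟩
  · change s x = starRingEnd ℂ (s x)
    rw [eq_ratCast, map_ratCast]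
  · have h : (DivisionRing.toRatAlgebra : Algebra ℚ ℚ) = Algebra.id ℚ := Subsingleton.elim _ _
    rw [h]
    exact IsGalois.self ℚ
  · refine AlgEquiv.ext fun x => ?_
    have h1 : ∀ u : ℚ ≃ₐ[ℚ] ℚ, u x = x := fun u => u.commutes x
    exact (h1 (s * t)).trans (h1 (t * s)).symm
  · simp
  · intro m φ _ _ v
    simp only [Matrix.zero_mulVec]
    exact Finset.sum_eq_zero fun k _ => φ.map_coord_zero k (Function.update_self _ _ _)
  · rw [hQ x hx]
    rfl
  · have h1 := hΦ (algebraMap ℚ ℂ)
    have h2 : (algebraMap ℚ ℂ).comp ((RingEquiv.refl ℚ : ℚ ≃+* ℚ) : ℚ →+* ℚ) = algebraMap ℚ ℂ :=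
      RingHom.ext fun x => rfl
    rw [h2] at h1
    exact absurd h1 (by tauto)
  · have h1 := hΦ (algebraMap ℚ ℂ)
    have h2 : (algebraMap ℚ ℂ).comp ((RingEquiv.refl ℚ : ℚ ≃+* ℚ) : ℚ →+* ℚ) = algebraMap ℚ ℂ :=
      RingHom.ext fun x => rfl
    rw [h2] at h1
    exact absurd h1 (by tauto)

end examples

/-- **Theorem.** For every abelian variety `A` over `ℚ̄`, the comparison isomorphisms of the 1-motives over
the factors of `A` are in no smaller torsors than those of the Mumford-Tate groups if and only if this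
is so for the homology of `A`, and if and only if the de Rham-Betti classes in all `H^1(A)^{⊗ 2m}(m)` are
Hodge classes. If the centre of the Hodge group is determined, for example if there are no factors of
type IV or if the centre is given by an abelian or ternary CM field with all CM types, then it is
sufficient that this is true for `Sym^2 (Sym^2 H^1(A))(2)`, and it is true if `A` is rigid. -/
theorem result {g : ℕ} (A : AbVarG g) :
    (OneMotiveTorsors A.toAbVar ↔ AllHodge A.toAbVar) ∧ (AbelianTorsor A ↔ AllHodge A.toAbVar) ∧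
    (NoFactorOfTypeIV A.toAbVar ∨ HasCMCentre A.toAbVar → CentreDetermined A.toAbVar) ∧
    (CentreDetermined A.toAbVar → (AllHodge A.toAbVar ↔ QuarticHodge A.toAbVar) ∧
      (IsRigid A.toAbVar → AllHodge A.toAbVar)) := by
  have h1 : OneMotiveTorsors A.toAbVar → AbelianTorsor A := fun h u v ℓ G hG hP =>
    h g 0 0 A (isFactor_self A.toAbVar) u v ℓ ⟨fun i => i.elim0, fun l => l.elim0,
      fun l => l.elim0, fun i => i.elim0, fun i => i.elim0⟩ G hG hP
  have h2 : AbelianTorsor A → AllHodge A.toAbVar := fun h m φ hφ =>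
    Pool.Agent.NH88.CM.allH_of_torsor A (fun i => i.elim0) (fun i => i.elim0) (fun i => i.elim0)
      (fun G hG hP => h _ _ _ G hG hP) m φ hφ
  have h3 : AllHodge A.toAbVar → OneMotiveTorsors A.toAbVar := torsors_of_allHodge
  refine ⟨⟨fun h => h2 (h1 h), h3⟩, ⟨h2, fun h => h1 (h3 h)⟩, ?_, fun hC => ⟨⟨?_, ?_⟩, ?_⟩⟩
  · rintro (h | h)
    · exact centreDetermined_of_noTypeIV h
    · exact centreDetermined_of_cmCentre h
  · exact fun h φ _ hφ => h 2 φ hφ
  · exact fun h m φ hφ => Pool.Agent.NH88.CM.hodge_of_detX (detX_of_quarticHodge hC h) hφ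
  · exact fun hR m φ hφ => Pool.Agent.NH88.CM.hodge_of_det (det_of hR hC) hφ

end Pool.Agent.Results.MP_caab05_ag.CodimensionTwo
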