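import Mathlib
import Pool.Agent.NH25.MW.Tup

/-!
# Grothendieck's period conjecture in growing degree for products of Legendre elliptic curves at S-units

For integers `t_i ≥ 2` let `X_t = E_{1/t_1} × ⋯ × E_{1/t_k}`, with `E_s : y² = x(x-1)(x-s)`. The field of the periods of `X_t`
is generated, up to algebraic numbers, by the `3k + 1` numbers `π`, `K(1/t_i)`, `E(1/t_i)`, `K(1 - 1/t_i)`, and for general
`t` its motivic Galois group has dimension `3k + 1`.

Let `A` be a finite set of integers `a ≥ 2` and `⟨A⟩` the multiplicative monoid generated by `A`: for a set of prime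
numbers these are the positive integers with all prime factors in `A`, for `A = {a}` the powers of `a`. There are only
about `(log T)^r` elements up to `T`, where `r` is the rank. For all `A`, `k`, `q` there is a number `C` such that for all
`δ` and arbitrary complex numbers `w_1, …, w_q` (for example logarithms, or the periods of any other fixed variety):

1. Let `(H + 2) ^ ((δ + 2) ^ C) ≤ n`. Among the numbers `n u`, `u ∈ ⟨A⟩`, `u ≤ H`, one can delete `q + 2 + |A|` so that for
   all `k`-tuples of distinct remaining numbers `t_i` every relation of total degree at most `δ` over a number field of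
   degree at most `δ` between `π`, the `w_j` and the `3k` numbers `K(1/t_i)`, `E(1/t_i)`, `K(1 - 1/t_i)` is trivial: the
   polynomial vanishes after the substitution of `π` and the `w_j`.
2. Let `N` be the number of the elements of `⟨A⟩` in `[2, T]`. This holds for all but
   `(δ + 2) ^ C (1 + log₂ log₂ T) N ^ (k - 1)` of the `N ^ k` tuples of such elements. For example, the conclusion
   holds for the curves `E_{1/a^m}`, for all but `O(log X)` of the exponents `m ≤ X`.
3. In particular a nonzero polynomial of degree at most `δ` over a number field of degree at most `δ` which vanishes at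
   the `3k + 1` periods is such a relation (as `π` is transcendental).

There is no bound for the heights of the coefficients, and the degrees may grow: `δ` may be a small power of `log T`.

The starting files `LegendreWindows`, `LegendreTuplesAllHeights`, `LegendreGrowingDegrees` treat all integers in short
intervals `[n, n + H]` and in `[2, T]`; their exceptional sets, of size `T ^ (1 - c)`, might contain all powers of `2`, or all
S-units: they say nothing about such sparse sets, as an interval `[n, n + H]` with `H` much smaller than `n` contains at most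
one power of `2`. Here the windows are multiplicative.

The proof. The functions `K(z/u)`, `E(z/u)` and their companions, for different natural numbers `u`, are rescaled
G-functions of `z`, their restricted monomials are a G-system with a constant polynomial in `u`
(`Pool.Agent.NH25.MW.gsys_rs`, `fin_u`), and they are linearly independent over `ℚ(z)`: the function with the smallest
`u` has a singularity at `z = u`, where the others are holomorphic (`Pool.Agent.NH25.MW.li_u`). One takes `z = 1/n`. The
unknown constants are `π`, `log n`, the logarithms of the elements of `A` and the `w_j`; each of them costs one exceptional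
element (`Pool.Agent.R351.GD.awh_exp`).
-/

set_option autoImplicit false

open Module

namespace Pool.Agent.Results.MP_caab05_ag.LegendreSUnits

/-- Complete elliptic integral of the first kind, `K(s) = ∫_0^{π/2} dθ / √(1 - s sin² θ)`. -/
noncomputable def K (s : ℝ) : ℝ := ∫ θ in (0 : ℝ)..(Real.pi / 2), 1 / √(1 - s * Real.sin θ ^ 2)

/-- Complete elliptic integral of the second kind, `E(s) = ∫_0^{π/2} √(1 - s sin² θ) dθ`. -/
noncomputable def E (s : ℝ) : ℝ := ∫ θ in (0 : ℝ)..(Real.pi / 2), √(1 - s * Real.sin θ ^ 2)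

/-- The `3k` numbers `K(1/t_i)`, `E(1/t_i)`, `K(1 - 1/t_i)`, for `i = 1, …, k`. -/
noncomputable def periods {k : ℕ} (t : Fin k → ℕ) (x : Fin k × Fin 3) : ℂ :=
  ![(K (1 / (t x.1 : ℝ)) : ℂ), (E (1 / (t x.1 : ℝ)) : ℂ), (K (1 - 1 / (t x.1 : ℝ)) : ℂ)] x.2

/-- A nonzero polynomial of total degree at most `δ` over some number field of degree at most `δ` vanishes at `π` and the
`3k` numbers `K(1/t_i)`, `E(1/t_i)`, `K(1 - 1/t_i)`. -/
def PeriodRelation {k : ℕ} (δ : ℕ) (t : Fin k → ℕ) : Prop :=
  ∃ F : IntermediateField ℚ ℂ, FiniteDimensional ℚ F ∧ finrank ℚ F ≤ δ ∧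
    ∃ P : MvPolynomial (Option (Fin k × Fin 3)) F, P ≠ 0 ∧ P.totalDegree ≤ δ ∧
      MvPolynomial.aeval (fun o : Option (Fin k × Fin 3) => o.elim (Real.pi : ℂ) (periods t)) P = 0

/-- A polynomial of total degree at most `δ` over some number field of degree at most `δ` vanishes at `π`, the `w_j` and
the `3k` numbers `K(1/t_i)`, `E(1/t_i)`, `K(1 - 1/t_i)`, but it does not vanish after the substitution of `π` and the `w_j`
alone. -/
def Related {q k : ℕ} (δ : ℕ) (w : Fin q → ℂ) (t : Fin k → ℕ) : Prop :=
  ∃ F : IntermediateField ℚ ℂ, FiniteDimensional ℚ F ∧ finrank ℚ F ≤ δ ∧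
    ∃ P : MvPolynomial (Option (Fin q) ⊕ Fin k × Fin 3) F, P.totalDegree ≤ δ ∧
      MvPolynomial.aeval (Sum.elim (fun o : Option (Fin q) => o.elim (Real.pi : ℂ) w) (periods t)) P = 0 ∧
      MvPolynomial.aeval (Sum.elim (fun o : Option (Fin q) => MvPolynomial.C (o.elim (Real.pi : ℂ) w))
        MvPolynomial.X) P ≠ (0 : MvPolynomial (Fin k × Fin 3) ℂ)

/-- The elements `t` of the multiplicative monoid generated by `A` with `2 ≤ t ≤ T`. -/
def units (A : Finset ℕ) (T : ℕ) : Set ℕ := {t | t ∈ Submonoid.closure (A : Set ℕ) ∧ 2 ≤ t ∧ t ≤ T}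

/-- **Main result.** -/
theorem result (A : Finset ℕ) (hA : ∀ a ∈ A, 2 ≤ a) (k q : ℕ) : ∃ C : ℕ, ∀ (δ : ℕ) (w : Fin q → ℂ),
    (∀ H n : ℕ, (H + 2) ^ ((δ + 2) ^ C) ≤ n → ∃ S : Finset ℕ, S.card ≤ q + 2 + A.card ∧
      ∀ t : Fin k → ℕ, Function.Injective t →
        (∀ i, (∃ u ∈ Submonoid.closure (A : Set ℕ), u ≤ H ∧ t i = n * u) ∧ t i ∉ S) → ¬ Related δ w t) ∧
    (∀ T : ℕ, {t : Fin k → ℕ | (∀ i, t i ∈ units A T) ∧ Related δ w t}.Finite ∧
      {t : Fin k → ℕ | (∀ i, t i ∈ units A T) ∧ Related δ w t}.ncard ≤
        (δ + 2) ^ C * (1 + Nat.log 2 (Nat.log 2 T)) * (units A T).ncard ^ (k - 1)) ∧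
    (∀ t : Fin k → ℕ, PeriodRelation δ t → Related δ w t) := by
  classical
  obtain ⟨E₁, ⟨C₁, hC₁⟩, h₁⟩ := Pool.Agent.NH25.MW.legu_window k q A (fun h => by
    have := hA 0 h
    omega)
  obtain ⟨C₂, h₂⟩ := Pool.Agent.NH25.MW.legu_tuples k (q + 1) A hA
  refine ⟨C₁ + C₂, fun δ w => ⟨fun H n hn => ?_, fun T => ?_, fun t ht => ?_⟩⟩
  · have hE : E₁ δ ≤ (δ + 2) ^ (C₁ + C₂) := (hC₁ δ).trans (Nat.pow_le_pow_right (by omega) (by omega))
    have hn' : (H + 2) ^ E₁ δ ≤ n := (Nat.pow_le_pow_right (by omega) hE).trans hn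
    have hn0 : 0 < n := lt_of_lt_of_le (by positivity) hn'
    obtain ⟨S, hS, h⟩ := h₁ δ H n hn' (Fin q) w (by rw [Fintype.card_fin])
    refine ⟨S.image fun u => n * u, Finset.card_image_le.trans hS, fun t ht htS hrel => ?_⟩
    choose u hu huH htu using fun i => (htS i).1
    have h2 : t = fun i => n * u i := funext htu
    refine h u (fun i j hij => ht (by rw [htu, htu, hij])) (fun i => ⟨hu i, huH i, fun hi => (htS i).2 ?_⟩) ?_
    · rw [htu i]
      exact Finset.mem_image_of_mem _ hi
    · rw [← h2]
      exact hrel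
  · have hun : units A T = (((Finset.Icc 2 T).filter fun t => t ∈ Submonoid.closure (A : Set ℕ) : Finset ℕ) : Set ℕ) := by
      ext t
      rw [Finset.mem_coe, Finset.mem_filter, Finset.mem_Icc]
      exact ⟨fun h => ⟨⟨h.2.1, h.2.2⟩, h.1⟩, fun h => ⟨h.2, h.1.1, h.1.2⟩⟩
    have hset : {t : Fin k → ℕ | (∀ i, t i ∈ units A T) ∧ Related δ w t} ⊆
        (((Fintype.piFinset fun _ : Fin k => (Finset.Icc 2 T).filter fun t => t ∈ Submonoid.closure (A : Set ℕ)).filter
          fun t => Pool.Agent.R351.GD.RelK δ (Fin.cons (Real.pi : ℂ) w : Fin (q + 1) → ℂ)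
            (Pool.Agent.Y113.tup Pool.Agent.Y113.per t) : Finset (Fin k → ℕ)) : Set (Fin k → ℕ)) := by
      rintro t ⟨ht1, ht2⟩
      rw [Finset.mem_coe, Finset.mem_filter, Fintype.mem_piFinset]
      refine ⟨fun i => ?_, ?_⟩
      · rw [← Finset.mem_coe, ← hun]
        exact ht1 i
      · have h3 : Pool.Agent.R351.GD.RelK δ (fun o : Option (Fin q) => o.elim (Real.pi : ℂ) w)
            (Pool.Agent.Y113.tup Pool.Agent.Y113.per t) := ht2
        exact h3.embed (Fin.cons (Real.pi : ℂ) w : Fin (q + 1) → ℂ) (fun o => o.elim 0 Fin.succ)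
          (by rintro (_ | j) <;> simp) (Equiv.refl _)
    refine ⟨(Finset.finite_toSet _).subset hset, ?_⟩
    have hcard := Set.ncard_le_ncard hset (Finset.finite_toSet _)
    rw [Set.ncard_coe_finset] at hcard
    refine hcard.trans ((h₂ δ _ T).trans ?_)
    rw [hun, Set.ncard_coe_finset]
    refine Nat.mul_le_mul_right _ ?_
    rw [add_comm 1]
    exact Nat.mul_le_mul_right _ (Nat.pow_le_pow_right (by omega) (by omega))
  · obtain ⟨F, hF, hFd, P, hne, hP, hP0⟩ := ht
    exact Pool.Agent.R351.GD.relK_of_pi (periods t) w F hF hFd P hP hP0 hne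

end Pool.Agent.Results.MP_caab05_ag.LegendreSUnits
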