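import Pool.Agent.NH25.DG.Cyc
import Pool.Agent.NH25.CV.All
import Pool.Agent.NH25.CV.IMG
import Pool.Agent.NH25.CV.CIM
import Pool.Agent.NH25.CT.Trd
import Pool.Agent.Y916.Sl.Many
import Pool.Agent.Y123.GN.E7

/-!
# Transcendence degrees of the periods of almost all members of all families of curves, in bounded degree

Grothendieck's conjecture (in its weak form) predicts the transcendence degree of the periods of a variety over `ℚ̄`. For the
members of a family outside the Hodge locus the predicted value is constant. By the theorems of Deligne, André and Ayoub it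
is, up to the contribution of the constant part of the family (which is the same for the functions and for their values),
the transcendence degree over `ℚ̄(z)` of the period functions. Here we prove that the transcendence degrees of the numbers and
of the functions agree in bounded degree, for almost all members of all families of curves, and of all families whose
periods are represented by G-functions, which by a theorem of André is the case for the cohomology in all degrees of all
smooth projective families over a curve over `ℚ̄`.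

Let `y = (y_i)` be complex numbers. A subset `I` of the indices is independent in degree `δ` over the number fields of degree `D` if no
nonzero polynomial of total degree at most `δ` over a number field of degree at most `D` vanishes at `(y_i)_{i ∈ I}`
(`NumbersIndependent`). The largest cardinality of such a set is `trdegNumbers D δ y`; for `D, δ → ∞` this decreases to the
transcendence degree. For functions `P = (P_i)` of `z = (z_1, …, z_p)` near `0` the algebraic independence over `ℚ̄(z)` is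
`FunctionsIndependent`, and the transcendence degree is `trdegFunctions P`. The `Statement` at `s`: a set of indices is
independent for the numbers `P_i(s)`, in degree `δ` over the number fields of degree `D`, if and only if it is so for the functions `P_i`
(equality of the algebraic matroids), in particular `trdegNumbers D δ (P(s)) = trdegFunctions P`.

The functions: for `p` families of curves `F(z, x, y) = 0`, `Q(z, x) ≠ 0` over `ℚ̄` (`CurveFamily`; every family of smooth curves over a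
curve is of this form over an open subset of the base) with parameters `z_1, …, z_p`, and any number of
closed paths on the fibre over the centre (`TransportedLoop`; every closed path on the curve `U_c` with continuously
differentiable `x(t)` has a unique transport to the neighbouring fibres), the periods of all forms `P(z, x, y) dx / Q(z, x) ^ k`,
arbitrary constants `w` (for example `2πi`, and the periods of any fixed varieties), and all the functions `P'` which are rational
functions over `ℚ̄(z)` of these (`RationalIn`): the periods of `H ^ j` of products of curves, of abelian schemes, etc.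

**Theorem.** There is a finite set `E` of complex numbers such that for all centres `c` with algebraic coordinates outside `E`
the following holds for all transported loops, constants, and `P'`. Let `m_l ≥ 1` and `0 < η ≤ 1`. For all `T ≥ 1` and
all integers `a_l` in `[1, T ^ (1 - η)]` we consider the points `s = c + (a_1 / β_1, …, a_p / β_p)` where `β_l` is an algebraic integer of
degree at most `m_l` all of whose conjugates are bounded by `T`. The number of the tuples `β` is at least `c₀ T ^ M`, with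
`M = ∑ m_l (m_l + 1) / 2` (the right order of magnitude). There is `B` such that for all `δ, D ≥ B` there are `c > 0` and `C` such
that the `Statement` holds for all but `C T ^ (M - c)` of the tuples. Moreover there are functions `d(T) → ∞` and `ε(T) → 0` such
that it holds with `D = δ = d(T)` for all but `ε(T) T ^ M` of the tuples. (The functions are written in the coordinate `z - c`.)

There is no hypothesis on the monodromy, the Hodge locus or the motivic Galois group. For instance, for a family of curves of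
genus `g` whose monodromy group is Zariski dense in `Sp_{2g}` the functions `P`, the entries of the period matrix of `H ^ 1` and `2πi`, have
transcendence degree `2g² + g + 1 = dim GSp_{2g}`.

Proof. `Pool/Agent/NH25/CV` (with many coauthors): the theorem of André that the periods of families of curves are given by
G-functions. `Pool/Agent/NH25/DG`: if many translates `β + g` of an algebraic number have a relation with coefficients in a
space over `ℚ` of bounded dimension, the products of a basis of the monomials in the entries of the fundamental matrix at these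
points generate a space of small dimension; this contradicts a lower bound by a Siegel lemma argument. So for
a fixed number field and almost all points all relations of degree `D δ` between the numbers `P'_i(s)`, `i ∈ I`, are specialisations of
relations between the functions. A relation of degree `δ` over a number field of degree `D` gives, by taking the norm, a
relation of degree `D δ` over `ℚ`.
-/

set_option autoImplicit false

open PowerSeries Filter

namespace Pool.Agent.Results.MP_caab05_ag.TranscendenceDegrees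

section systems

variable {L : Type} [Field L]

/-- The arithmetic conditions in the definition of a G-function over the number field `L`: geometric growth of all
conjugates of the coefficients and of their common denominators. -/
def GFunction (g : PowerSeries L) : Prop := ∃ A : ℝ, (∀ (φ : L →+* ℂ) (m : ℕ), ‖φ (coeff m g)‖ ≤ A ^ (m + 1)) ∧
  ∀ m, ∃ d : ℕ, 0 < d ∧ (d : ℝ) ≤ A ^ (m + 1) ∧ ∀ j ≤ m, IsIntegral ℤ ((d : L) * coeff j g)

/-- `Z` is a fundamental matrix (rows: solutions) of a differential system over `L(z)` which is regular at `0`, and the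
entries of `Z` and of the inverse matrix are G-functions. -/
structure GMatrix {n : ℕ} (Z : Matrix (Fin n) (Fin n) (PowerSeries L)) : Prop where
  /-- the system: `f Z' = Z A` with `f(0) ≠ 0` -/
  ode : ∃ (f : Polynomial L) (A : Matrix (Fin n) (Fin n) (Polynomial L)), f.coeff 0 ≠ 0 ∧
    ∀ i j, (f : PowerSeries L) * PowerSeries.derivative L (Z i j) = ∑ k, Z i k * (A k j : PowerSeries L)
  /-- the entries are G-functions -/
  gfun : ∀ i j, GFunction (Z i j)
  /-- the entries of the inverse matrix are G-functions -/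
  inv : ∃ W : Matrix (Fin n) (Fin n) (PowerSeries L), W * Z = 1 ∧ ∀ i j, GFunction (W i j)

/-- the value of a power series -/
noncomputable def value [Algebra L ℂ] (g : PowerSeries L) (z : ℂ) : ℂ := ∑' m : ℕ, algebraMap L ℂ (coeff m g) * z ^ m

end systems

/-- There are a number field `L` in `ℂ` and fundamental matrices `Z_1, …, Z_p` of G-functions over `L` such that every
function `P i`, restricted to the polydisc of radius `ρ`, is for some `l` a linear combination, with complex coefficients, of `1`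
and the entries of `Z_l(z_l)`. -/
def GRepresented {p : ℕ} {ι : Type} (P : (Fin p → ℂ) → ι → ℂ) (ρ : ℝ) : Prop :=
  ∃ (L : Type) (_ : Field L) (_ : NumberField L) (_ : Algebra L ℂ) (n : Fin p → ℕ)
    (Z : ∀ l, Matrix (Fin (n l)) (Fin (n l)) (PowerSeries L)), (∀ l, GMatrix (Z l)) ∧
    ∀ i, ∃ (l : Fin p) (c₀ : ℂ) (c : Matrix (Fin (n l)) (Fin (n l)) ℂ), ∀ z : Fin p → ℂ, (∀ l, ‖z l‖ < ρ) →
      P z i = c₀ + ∑ a, ∑ b, c a b * value (Z l a b) (z l)

section statement

/-- The field of all algebraic numbers. -/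
noncomputable abbrev QBar : IntermediateField ℚ ℂ := algebraicClosure ℚ ℂ

variable {p : ℕ} {ι : Type}

/-- a polynomial over `ℚ̄[z_1, …, z_p]` at a point `z` -/
noncomputable def special (G : MvPolynomial ι (MvPolynomial (Fin p) QBar)) (z : Fin p → ℂ) : MvPolynomial ι ℂ :=
  G.map (MvPolynomial.aeval z : MvPolynomial (Fin p) QBar →ₐ[QBar] ℂ).toRingHom

/-- `G(z, P(z)) = 0` for all `z` in the polydisc of radius `r` -/
def Holds (P : (Fin p → ℂ) → ι → ℂ) (r : ℝ) (G : MvPolynomial ι (MvPolynomial (Fin p) QBar)) : Prop :=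
  ∀ z : Fin p → ℂ, (∀ l, ‖z l‖ < r) → MvPolynomial.aeval (P z) (special G z) = 0

/-- The functions `P` are algebraically independent over the field of rational functions `ℚ̄(z)`. -/
def FunctionsIndependent (P : (Fin p → ℂ) → ι → ℂ) : Prop :=
  ∀ G : MvPolynomial ι (MvPolynomial (Fin p) QBar), (∃ r : ℝ, 0 < r ∧ Holds P r G) → G = 0

/-- No nonzero polynomial of total degree at most `δ` over a number field of degree at most `D` vanishes at `y`. -/
def NumbersIndependent (D δ : ℕ) (y : ι → ℂ) : Prop :=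
  ∀ K : IntermediateField ℚ ℂ, FiniteDimensional ℚ K → Module.finrank ℚ K ≤ D → ∀ F : MvPolynomial ι K,
    F.totalDegree ≤ δ → MvPolynomial.aeval y F = 0 → F = 0

/-- the transcendence degree of the field generated by the functions `P` over `ℚ̄(z)` -/
noncomputable def trdegFunctions (P : (Fin p → ℂ) → ι → ℂ) : ℕ :=
  sSup {n | ∃ I : Finset ι, I.card = n ∧ FunctionsIndependent fun z (i : I) => P z i}

/-- the transcendence degree of the numbers `y` in degree `δ` over the number fields of degree `D` -/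
noncomputable def trdegNumbers (D δ : ℕ) (y : ι → ℂ) : ℕ :=
  sSup {n | ∃ I : Finset ι, I.card = n ∧ NumbersIndependent D δ fun i : I => y i}

/-- The algebraic matroid of the numbers `P(s)`, in degree `δ` over the number fields of degree `D`, is equal to the
algebraic matroid of the functions `P` over `ℚ̄(z)`; in particular the transcendence degrees are equal. -/
def Statement (P : (Fin p → ℂ) → ι → ℂ) (D δ : ℕ) (s : Fin p → ℂ) : Prop :=
  (∀ I : Finset ι, NumbersIndependent D δ (fun i : I => P s i) ↔ FunctionsIndependent fun z (i : I) => P z i) ∧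
  trdegNumbers D δ (P s) = trdegFunctions P

end statement

/-- algebraic integers of degree at most `m` all of whose conjugates have absolute value at most `T` -/
def House (m T : ℕ) (ξ : ℂ) : Prop :=
  IsIntegral ℤ ξ ∧ (minpoly ℚ ξ).natDegree ≤ m ∧ ∀ z : ℂ, Polynomial.aeval z (minpoly ℚ ξ) = 0 → ‖z‖ ≤ T

/-- the tuples `β` -/
def Tuples {p : ℕ} (m : Fin p → ℕ) (T : ℕ) : Set (Fin p → ℂ) := {β | ∀ l, House (m l) T (β l)}

/-- the exponent `∑ m_l (m_l + 1) / 2` -/
def size {p : ℕ} (m : Fin p → ℕ) : ℕ := ∑ l, m l * (m l + 1) / 2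

/-- The tuples `β` for which the point `s = (a_1 / β_1, …, a_p / β_p)` is not in the polydisc of radius `r` or the
`Statement` at `s` fails. -/
def Exceptional {p : ℕ} {ι : Type} (P : (Fin p → ℂ) → ι → ℂ) (r : ℝ) (D δ : ℕ) (m : Fin p → ℕ)
    (T : ℕ) (a : Fin p → ℕ) : Set (Fin p → ℂ) :=
  {β | β ∈ Tuples m T ∧ ¬ ((∀ l, ‖(a l : ℂ) / β l‖ < r) ∧ Statement P D δ fun l => (a l : ℂ) / β l)}

/-- The conclusion of the theorem, for a family of functions `P` on the polydisc of radius `ρ`. -/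
def AlmostAll {p : ℕ} {ι : Type} (P : (Fin p → ℂ) → ι → ℂ) (ρ : ℝ) : Prop :=
  ∃ r : ℝ, 0 < r ∧ r ≤ ρ ∧ ∀ (m : Fin p → ℕ) (η : ℝ), (∀ l, 1 ≤ m l) → 0 < η → η ≤ 1 →
    (∃ B : ℕ, ∀ δ D : ℕ, B ≤ δ → B ≤ D → ∃ c C : ℝ, 0 < c ∧ ∀ T : ℕ, 1 ≤ T → ∀ a : Fin p → ℕ,
      (∀ l, 1 ≤ a l ∧ (a l : ℝ) ≤ (T : ℝ) ^ (1 - η)) →
      ((Exceptional P r D δ m T a).ncard : ℝ) ≤ C * (T : ℝ) ^ ((size m : ℝ) - c)) ∧
    (∃ (d : ℕ → ℕ) (ε : ℕ → ℝ), Tendsto d atTop atTop ∧ Tendsto ε atTop (nhds 0) ∧
      ∀ T : ℕ, 1 ≤ T → ∀ a : Fin p → ℕ, (∀ l, 1 ≤ a l ∧ (a l : ℝ) ≤ (T : ℝ) ^ (1 - η)) →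
      ((Exceptional P r (d T) (d T) m T a).ncard : ℝ) ≤ ε T * (T : ℝ) ^ size m)

section rational

/-- The functions `P' i` are rational functions over `ℚ̄(z)` of the functions `P` near `0`:
`P' i = Φ i (z, P(z)) / φ(z)` with `φ(0) ≠ 0`. -/
def RationalIn {p : ℕ} {ι ι' : Type} (P : (Fin p → ℂ) → ι → ℂ) (P' : (Fin p → ℂ) → ι' → ℂ) (ρ : ℝ) : Prop :=
  ∃ (Φ : ι' → MvPolynomial ι (MvPolynomial (Fin p) QBar)) (φ : MvPolynomial (Fin p) QBar),
    MvPolynomial.aeval (0 : Fin p → ℂ) φ ≠ 0 ∧ ∀ z : Fin p → ℂ, (∀ l, ‖z l‖ < ρ) → ∀ i,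
      MvPolynomial.aeval z φ * P' z i = MvPolynomial.aeval (P z) (special (Φ i) z)

end rational

section curves

/-- The polynomial `F(z, x, Y)` in `Y`, for `F` in `ℚ̄[z][x][Y]`. -/
noncomputable def fibre (F : Polynomial (Polynomial (Polynomial QBar))) (z x : ℂ) : Polynomial ℂ :=
  F.map ((Polynomial.evalRingHom x).comp (Polynomial.mapRingHom (Polynomial.eval₂RingHom (algebraMap QBar ℂ) z)))

/-- The value `Q(z, x)`, for `Q` in `ℚ̄[z][x]`. -/
noncomputable def point (Q : Polynomial (Polynomial QBar)) (z x : ℂ) : ℂ :=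
  (Q.map (Polynomial.eval₂RingHom (algebraMap QBar ℂ) z)).eval x

/-- A family of curves `U_z : F(z, x, y) = 0, Q(z, x) ≠ 0` over the algebraic numbers, unramified over the `x`-line without the
zeros of `Q(z, x)`, with `r` forms `P_i(z, x, y) dx / Q(z, x) ^ k_i`. -/
structure CurveFamily where
  F : Polynomial (Polynomial (Polynomial QBar))
  Q : Polynomial (Polynomial QBar)
  /-- `F` is monic in `y` -/
  monic : F.Monic
  degree_pos : 0 < F.natDegree
  ne_zero : Q ≠ 0
  /-- if `Q(z, x) ≠ 0` then `F(z, x, Y)` has no multiple root -/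
  unramified : ∀ z x : ℂ, point Q z x ≠ 0 → (fibre F z x).Separable
  /-- the number of forms -/
  r : ℕ
  P : Fin r → Polynomial (Polynomial (Polynomial QBar))
  k : Fin r → ℕ

/-- A closed path on the curve `U_c` and its transport `(x(t), y(z, t))` to the curves `U_z`, `|z - c| < ρ`. -/
structure TransportedLoop (X : CurveFamily) (c : ℂ) (ρ : ℝ) where
  x : ℝ → ℂ
  y : ℂ → ℝ → ℂ
  smooth : ContDiff ℝ 1 x
  continuous : ContinuousOn (fun v : ℂ × ℝ => y v.1 v.2) (Metric.ball c ρ ×ˢ Set.Icc (0 : ℝ) 1)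
  closed_x : x 0 = x 1
  closed_y : ∀ z ∈ Metric.ball c ρ, y z 0 = y z 1
  curve : ∀ z ∈ Metric.ball c ρ, ∀ t ∈ Set.Icc (0 : ℝ) 1, (fibre X.F z (x t)).eval (y z t) = 0
  away : ∀ z ∈ Metric.ball c ρ, ∀ t ∈ Set.Icc (0 : ℝ) 1, point X.Q z (x t) ≠ 0

/-- The period of the `i`-th form over the transported loop on `U_z`. -/
noncomputable def period {X : CurveFamily} {c : ℂ} {ρ : ℝ} (γ : TransportedLoop X c ρ) (i : Fin X.r) (z : ℂ) : ℂ :=
  ∫ t in (0 : ℝ)..1, (fibre (X.P i) z (γ.x t)).eval (γ.y z t) / point X.Q z (γ.x t) ^ X.k i * deriv γ.x t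

/-- The periods of `p` families of curves over `σ l` transported loops, as functions of `z - c`, and the constants `w`. -/
noncomputable def periods {p q : ℕ} (X : Fin p → CurveFamily) (c : Fin p → ℂ) {ρ : ℝ} {σ : Fin p → ℕ}
    (γ : ∀ l, Fin (σ l) → TransportedLoop (X l) (c l) ρ) (w : Fin q → ℂ) (z : Fin p → ℂ) :
    (Σ l, Fin (σ l) × Fin (X l).r) ⊕ Fin q → ℂ :=
  Sum.elim (fun v => period (γ v.1 v.2.1) v.2.2 (c v.1 + z v.1)) w

end curves

section proof

open Pool.Agent.NH25.DG Pool.Agent.NH25.CV Pool.Agent.NH25.CT Pool.Agent.Y916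

variable {p : ℕ} {ι ι' : Type}

theorem holds_iff {P : (Fin p → ℂ) → ι → ℂ} {r : ℝ} {G : MvPolynomial ι (MvPolynomial (Fin p) QBar)} :
    Holds P r G ↔ ∀ z : Fin p → ℂ, (∀ l, ‖z l‖ < r) →
      G.eval₂ (MvPolynomial.aeval z : MvPolynomial (Fin p) QBar →ₐ[QBar] ℂ).toRingHom (P z) = 0 := by
  have h1 : ∀ z : Fin p → ℂ, MvPolynomial.aeval (P z) (special G z) =
      G.eval₂ (MvPolynomial.aeval z : MvPolynomial (Fin p) QBar →ₐ[QBar] ℂ).toRingHom (P z) := by
    intro z
    unfold special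
    rw [MvPolynomial.aeval_def, MvPolynomial.eval₂_map]
    rfl
  unfold Holds
  simp only [h1]

theorem AlmostAll.mono {P : (Fin p → ℂ) → ι → ℂ} {ρ ρ' : ℝ} (h : AlmostAll P ρ') (hρ : ρ' ≤ ρ) : AlmostAll P ρ := by
  obtain ⟨r, hr, hrρ, h⟩ := h
  exact ⟨r, hr, hrρ.trans hρ, h⟩

theorem statement_of [Fintype ι] {P : (Fin p → ℂ) → ι → ℂ} {r : ℝ} (hr : 0 < r) {D δ B : ℕ} {s : Fin p → ℂ}
    (hs : ∀ l, ‖s l‖ < r) (rI : Finset ι → ℝ) (G : ∀ I : Finset ι, MvPolynomial I (MvPolynomial (Fin p) QBar))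
    (hrI : ∀ I, r ≤ rI I)
    (hG : ∀ I : Finset ι, (¬ FunctionsIndependent fun z (i : I) => P z i) → G I ≠ 0 ∧ Holds (fun z (i : I) => P z i) (rI I) (G I))
    (hsp : ∀ I, G I ≠ 0 → ∃ (K : IntermediateField ℚ ℂ) (_ : FiniteDimensional ℚ K) (F : MvPolynomial I K),
      Module.finrank ℚ K ≤ B ∧ F ≠ 0 ∧ F.totalDegree ≤ B ∧ F.map (algebraMap K ℂ) = special (G I) s)
    (hδ : B ≤ δ) (hD : B ≤ D)
    (hspec : ∀ I : Finset ι, ∃ κ : IntermediateField ℚ ℂ, SpecQ κ (fun z (i : I) => P z i) r (D * δ) s) :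
    Statement P D δ s := by
  classical
  have hmain : ∀ I : Finset ι, NumbersIndependent D δ (fun i : I => P s i) ↔
      FunctionsIndependent fun z (i : I) => P z i := by
    intro I
    constructor
    · intro h1
      by_contra h2
      obtain ⟨h3, h4⟩ := hG I h2
      obtain ⟨K, hK, F, h5, h6, h7, h8⟩ := hsp I h3
      refine h6 (h1 K hK (h5.trans hD) F (h7.trans hδ) ?_)
      have h9 := h4 s fun l => (hs l).trans_le (hrI I)
      rw [← h8, MvPolynomial.aeval_map_algebraMap] at h9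
      exact h9
    · intro h1
      obtain ⟨κ, hκ⟩ := hspec I
      refine noRel_of_spec (P := fun z (i : I) => P z i) (r := r) (fun G' hG' => ?_) hκ
      exact h1 G' ⟨r, hr, holds_iff.2 hG'⟩
  refine ⟨hmain, ?_⟩
  unfold trdegNumbers trdegFunctions
  congr 1
  ext n
  simp only [Set.mem_setOf_eq, hmain]

theorem exists_radius (φ : MvPolynomial (Fin p) QBar) (hφ : MvPolynomial.aeval (0 : Fin p → ℂ) φ ≠ 0) :
    ∃ ρ : ℝ, 0 < ρ ∧ ∀ z : Fin p → ℂ, (∀ l, ‖z l‖ < ρ) → MvPolynomial.aeval z φ ≠ 0 := by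
  have hc : Continuous fun z : Fin p → ℂ => MvPolynomial.aeval z φ := by
    have h1 : (fun z : Fin p → ℂ => MvPolynomial.aeval z φ) = fun z =>
        MvPolynomial.eval z (φ.map (algebraMap QBar ℂ)) := by
      funext z
      rw [MvPolynomial.eval_map, MvPolynomial.aeval_def]
    rw [h1]
    exact MvPolynomial.continuous_eval _
  have h2 : {z : Fin p → ℂ | MvPolynomial.aeval z φ ≠ 0} ∈ nhds (0 : Fin p → ℂ) :=
    (isOpen_ne_fun hc continuous_const).mem_nhds hφ
  obtain ⟨ρ, hρ, hball⟩ := Metric.mem_nhds_iff.1 h2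
  refine ⟨ρ, hρ, fun z hz => hball ?_⟩
  rw [Metric.mem_ball, dist_zero_right]
  exact (pi_norm_lt_iff hρ).2 hz

open Classical in
theorem count_of [Fintype ι'] {P' : (Fin p → ℂ) → ι' → ℂ} {r : ℝ} (hr : 0 < r) (rI : Finset ι' → ℝ)
    (G : ∀ I : Finset ι', MvPolynomial I (MvPolynomial (Fin p) QBar)) (hrI : ∀ I, r ≤ rI I)
    (hG : ∀ I : Finset ι', (¬ FunctionsIndependent fun z (i : I) => P' z i) →
      G I ≠ 0 ∧ Holds (fun z (i : I) => P' z i) (rI I) (G I))
    (hI : ∀ I : Finset ι', Cnt (fun z (i : I) => P' z i) r) (m : Fin p → ℕ) (η : ℝ) (hη : 0 < η) (hη1 : η ≤ 1) :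
    ∃ B : ℕ, ∀ δ D : ℕ, B ≤ δ → B ≤ D → ∃ c C : ℝ, 0 < c ∧ ∀ T : ℕ, 1 ≤ T → ∀ a : Fin p → ℕ,
      (∀ l, 1 ≤ a l ∧ (a l : ℝ) ≤ (T : ℝ) ^ (1 - η)) →
      ((Exceptional P' r D δ m T a).ncard : ℝ) ≤ C * (T : ℝ) ^ ((size m : ℝ) - c) := by
  have hexp : size m = ∑ l, Sl.Mm (m l) := Finset.sum_congr rfl fun l _ => (Sl.Mm_eq (m l)).symm
  have hex : ∀ I : Finset ι', ∃ (L₁ : IntermediateField ℚ ℂ) (_ : FiniteDimensional ℚ L₁)
      (Δ : MvPolynomial (Fin p) QBar), Δ ≠ 0 ∧ (G I ≠ 0 → ∀ (s : Fin p → ℂ) (K : IntermediateField ℚ ℂ), L₁ ≤ K →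
        (∀ l, s l ∈ K) → MvPolynomial.aeval s Δ ≠ 0 → ∃ F : MvPolynomial I K, F ≠ 0 ∧
          F.totalDegree ≤ (G I).totalDegree ∧ F.map (algebraMap K ℂ) = special (G I) s) := by
    intro I
    by_cases h : G I = 0
    · exact ⟨⊥, inferInstance, 1, one_ne_zero, fun h' => absurd h h'⟩
    · obtain ⟨L₁, hL₁, Δ, hΔ, h1⟩ := exists_spec (G I) h
      exact ⟨L₁, hL₁, Δ, hΔ, fun _ => h1⟩
  choose L₁ hL₁ Δ hΔ hsp using hex
  set B : ℕ := ∑ I : Finset ι', (Module.finrank ℚ (L₁ I) * ∏ l, m l + (G I).totalDegree) with hB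
  have hBI : ∀ I, Module.finrank ℚ (L₁ I) * ∏ l, m l + (G I).totalDegree ≤ B := fun I =>
    Finset.single_le_sum (f := fun I : Finset ι' => Module.finrank ℚ (L₁ I) * ∏ l, m l + (G I).totalDegree)
      (fun _ _ => Nat.zero_le _) (Finset.mem_univ I)
  refine ⟨B, fun δ D hδ hD => ?_⟩
  choose c C hc hC hcount using fun I => hI I (D * δ) 1 m η hη hη1
  have hΔc : ∀ I, (Δ I).map (algebraMap QBar ℂ) ≠ 0 := fun I h0 =>
    hΔ I (MvPolynomial.map_injective _ (algebraMap QBar ℂ).injective (h0.trans (map_zero _).symm))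
  choose C' hC' hzero using fun I => zeros_NF (hΔc I) m
  obtain ⟨J, hJ⟩ := Finite.exists_min c
  refine ⟨min (c J) 1, ∑ I : Finset ι', (C I + C' I), lt_min (hc J) one_pos, fun T hT a ha => ?_⟩
  have hT1 : (1 : ℝ) ≤ T := by exact_mod_cast hT
  set bad : Finset ι' → Finset (Fin p → ℂ) := fun I =>
    ((Fintype.piFinset fun l : Fin p => Sl.NF (m l) T).filter fun β =>
      ¬ ((∀ l, ‖(a l : ℂ) / β l‖ < r) ∧
        SpecQ ((⊥ : IntermediateField ℚ ℂ) ⊔ IntermediateField.adjoin ℚ (Set.range fun l => (a l : ℂ) / β l))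
          (fun z (i : I) => P' z i) r (D * δ) (fun l => (a l : ℂ) / β l))) with hbad
  set zer : Finset ι' → Finset (Fin p → ℂ) := fun I =>
    ((Fintype.piFinset fun l : Fin p => Sl.NF (m l) T).filter fun β =>
      MvPolynomial.eval (fun l => (a l : ℂ) / β l) ((Δ I).map (algebraMap QBar ℂ)) = 0) with hzer
  have hsub : Exceptional P' r D δ m T a ⊆
      ((Finset.univ.biUnion fun I => bad I ∪ zer I : Finset (Fin p → ℂ)) : Set (Fin p → ℂ)) := by
    intro β hβ
    obtain ⟨hβ1, hβ2⟩ := hβ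
    have hβN : β ∈ Fintype.piFinset fun l : Fin p => Sl.NF (m l) T :=
      Fintype.mem_piFinset.2 fun l => Sl.mem_NF.2 (Sl.SInt.aint (hβ1 l))
    rw [Finset.mem_coe, Finset.mem_biUnion]
    by_contra hcon
    push Not at hcon
    have hnb : ∀ I, β ∉ bad I ∧ β ∉ zer I := fun I => by
      have h1 := hcon I (Finset.mem_univ I)
      rw [Finset.mem_union] at h1
      exact ⟨fun h2 => h1 (Or.inl h2), fun h2 => h1 (Or.inr h2)⟩
    have hgood : ∀ I : Finset ι', (∀ l, ‖(a l : ℂ) / β l‖ < r) ∧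
        SpecQ ((⊥ : IntermediateField ℚ ℂ) ⊔ IntermediateField.adjoin ℚ (Set.range fun l => (a l : ℂ) / β l))
          (fun z (i : I) => P' z i) r (D * δ) (fun l => (a l : ℂ) / β l) := fun I => by
      by_contra h1
      exact (hnb I).1 (Finset.mem_filter.2 ⟨hβN, h1⟩)
    have hnz : ∀ I, MvPolynomial.aeval (fun l => (a l : ℂ) / β l) (Δ I) ≠ 0 := fun I h1 => by
      refine (hnb I).2 (Finset.mem_filter.2 ⟨hβN, ?_⟩)
      rw [MvPolynomial.eval_map]
      exact h1
    refine hβ2 ⟨(hgood ∅).1, statement_of hr (hgood ∅).1 rI G hrI hG (B := B) (fun I hGI => ?_) hδ hD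
      fun I => ⟨_, (hgood I).2⟩⟩
    obtain ⟨h1, h2⟩ := finrank_adj (m := m) (T := (T : ℝ)) (β := β) fun l => Sl.SInt.aint (hβ1 l)
    have h3 := hL₁ I
    obtain ⟨F, hF1, hF2, hF3⟩ := hsp I hGI (fun l => (a l : ℂ) / β l)
      (L₁ I ⊔ IntermediateField.adjoin ℚ (Set.range β)) le_sup_left (fun l => by
        refine div_mem (natCast_mem _ _) ?_
        exact (le_sup_right : IntermediateField.adjoin ℚ (Set.range β) ≤ _)
          (IntermediateField.subset_adjoin ℚ _ ⟨l, rfl⟩)) (hnz I)
    refine ⟨_, IntermediateField.finiteDimensional_sup _ _, F, ?_, hF1, ?_, hF3⟩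
    · refine (IntermediateField.finrank_sup_le _ _).trans ((Nat.mul_le_mul_left _ h2).trans ?_)
      exact (Nat.le_add_right _ _).trans (hBI I)
    · exact hF2.trans ((Nat.le_add_left _ _).trans (hBI I))
  have hcard : ((Exceptional P' r D δ m T a).ncard : ℝ) ≤ ∑ I : Finset ι', (((bad I).card : ℝ) + ((zer I).card : ℝ)) := by
    have h1 := Set.ncard_le_ncard hsub (Finset.finite_toSet _)
    rw [Set.ncard_coe_finset] at h1
    have h2 : (Finset.univ.biUnion fun I => bad I ∪ zer I).card ≤ ∑ I : Finset ι', ((bad I).card + (zer I).card) :=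
      Finset.card_biUnion_le.trans (Finset.sum_le_sum fun I _ => Finset.card_union_le _ _)
    exact_mod_cast h1.trans h2
  refine hcard.trans ?_
  rw [Finset.sum_mul]
  refine Finset.sum_le_sum fun I _ => ?_
  rw [add_mul, hexp]
  have hbI : ((bad I).card : ℝ) ≤ C I * (T : ℝ) ^ (((∑ l, Sl.Mm (m l) : ℕ) : ℝ) - c I) :=
    hcount I ⊥ inferInstance (by rw [IntermediateField.finrank_bot]) T hT a ha
  have hzI : ((zer I).card : ℝ) ≤ C' I * (T : ℝ) ^ (((∑ l, Sl.Mm (m l) : ℕ) : ℝ) - 1) :=
    hzero I T hT a fun i => (ha i).1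
  refine add_le_add (hbI.trans (mul_le_mul_of_nonneg_left ?_ (hC I))) (hzI.trans (mul_le_mul_of_nonneg_left ?_ (hC' I)))
  · exact Real.rpow_le_rpow_of_exponent_le hT1 (by linarith [hJ I, min_le_left (c J) 1])
  · exact Real.rpow_le_rpow_of_exponent_le hT1 (by linarith [min_le_right (c J) 1])

theorem almost_of_count {P : (Fin p → ℂ) → ι → ℂ} {r : ℝ} {m : Fin p → ℕ} {η : ℝ}
    (h : ∃ B : ℕ, ∀ δ D : ℕ, B ≤ δ → B ≤ D → ∃ c C : ℝ, 0 < c ∧ ∀ T : ℕ, 1 ≤ T → ∀ a : Fin p → ℕ,
      (∀ l, 1 ≤ a l ∧ (a l : ℝ) ≤ (T : ℝ) ^ (1 - η)) →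
      ((Exceptional P r D δ m T a).ncard : ℝ) ≤ C * (T : ℝ) ^ ((size m : ℝ) - c)) :
    ∃ (d : ℕ → ℕ) (ε : ℕ → ℝ), Tendsto d atTop atTop ∧ Tendsto ε atTop (nhds 0) ∧
      ∀ T : ℕ, 1 ≤ T → ∀ a : Fin p → ℕ, (∀ l, 1 ≤ a l ∧ (a l : ℝ) ≤ (T : ℝ) ^ (1 - η)) →
      ((Exceptional P r (d T) (d T) m T a).ncard : ℝ) ≤ ε T * (T : ℝ) ^ size m := by
  obtain ⟨B, hB⟩ := h
  choose c C hc hcount using fun D : ℕ => hB (D + B) (D + B) (Nat.le_add_left _ _) (Nat.le_add_left _ _)
  obtain ⟨d, hd, hε⟩ := Pool.Agent.Y123.GN.diag_seq (fun D T => C D * (1 / (T : ℝ) ^ (c D))) (by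
    intro D
    have h2 : Tendsto (fun N : ℕ => (1 : ℝ) / (N : ℝ) ^ (c D)) atTop (nhds 0) := by
      have h3 := (tendsto_rpow_atTop (hc D)).comp tendsto_natCast_atTop_atTop
      have h4 := h3.inv_tendsto_atTop
      refine h4.congr fun N => ?_
      rw [one_div]
      rfl
    have h5 := h2.const_mul (C D)
    rw [mul_zero] at h5
    exact h5)
  refine ⟨fun T => d T + B, _, tendsto_atTop_mono (fun T => Nat.le_add_right (d T) B) hd, hε, ?_⟩
  intro T hT a ha
  refine (hcount (d T) T hT a ha).trans (le_of_eq ?_)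
  have hT0 : (0 : ℝ) < T := by exact_mod_cast hT
  rw [Real.rpow_sub hT0, Real.rpow_natCast]
  ring

theorem almost_rational [Finite ι] [Finite ι'] {P : (Fin p → ℂ) → ι → ℂ} {P' : (Fin p → ℂ) → ι' → ℂ} {ρ : ℝ}
    (hρ : 0 < ρ) (hP : GRepresented P ρ) (hR : RationalIn P P' ρ) : AlmostAll P' ρ := by
  classical
  have := Fintype.ofFinite ι
  have := Fintype.ofFinite ι'
  obtain ⟨Φ, φ, hφ0, hΦ⟩ := hR
  obtain ⟨ρ₁, hρ₁, hφ⟩ := exists_radius φ hφ0
  have hdep : ∀ I : Finset ι', ∃ (rI : ℝ) (G : MvPolynomial I (MvPolynomial (Fin p) QBar)), 0 < rI ∧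
      ((¬ FunctionsIndependent fun z (i : I) => P' z i) → G ≠ 0 ∧ Holds (fun z (i : I) => P' z i) rI G) := by
    intro I
    by_cases h : FunctionsIndependent fun z (i : I) => P' z i
    · exact ⟨1, 0, one_pos, fun h' => absurd h h'⟩
    · have h' := h
      unfold FunctionsIndependent at h'
      push Not at h'
      obtain ⟨G, ⟨r, hr, hG⟩, hG0⟩ := h'
      exact ⟨r, G, hr, fun _ => ⟨hG0, hG⟩⟩
  choose rI G hrI hG using hdep
  obtain ⟨I₀, hI₀⟩ := Finite.exists_min rI
  obtain ⟨L, i1, i2, i3, n, Z, hZ, hP⟩ := hP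
  choose l c₀ c hc using hP
  choose f A hf hsys using fun l => (hZ l).ode
  choose W hW hWG using fun l => (hZ l).inv
  have hD : ∀ l, Pool.Agent.Y921.DB.DatL (f l) (A l) (Z l) (W l) := fun l =>
    { reg := hf l, sys := hsys l, inv := fun i j => by
        have h1 := congrFun (congrFun (hW l) i) j
        rw [Matrix.mul_apply, Matrix.one_apply] at h1
        exact h1
      gZ := fun i j => (hZ l).gfun i j, gW := fun i j => hWG l i j }
  let R : Pool.Agent.NH25.DG.Rep P (min (min ρ ρ₁) (rI I₀)) Z :=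
    ⟨l, c₀, c, fun z hz i => hc i z fun l => (hz l).trans_le ((min_le_left _ _).trans (min_le_left _ _))⟩
  obtain ⟨r, hr, hrr, hall⟩ := R.count (lt_min (lt_min hρ hρ₁) (hrI I₀)) hD
  have hrρ : r ≤ ρ := hrr.trans ((min_le_left _ _).trans (min_le_left _ _))
  have hrρ₁ : r ≤ ρ₁ := hrr.trans ((min_le_left _ _).trans (min_le_right _ _))
  have hrI' : ∀ I, r ≤ rI I := fun I => (hrr.trans (min_le_right _ _)).trans (hI₀ I)
  have hI : ∀ I : Finset ι', Cnt (fun z (i : I) => P' z i) r := by
    intro I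
    refine t_CIM t_IMG p ι I P _ r (fun i => Φ i) φ (fun z hz => ⟨hφ z fun l => (hz l).trans_le hrρ₁, fun i => ?_⟩) hall
    rw [hΦ z (fun l => (hz l).trans_le hrρ) i]
    unfold special
    rw [MvPolynomial.aeval_def, MvPolynomial.eval₂_map]
    rfl
  refine ⟨r, hr, hrρ, fun m η hm hη hη1 => ?_⟩
  have h1 := count_of hr rI G hrI' hG hI m η hη hη1
  exact ⟨h1, almost_of_count h1⟩

theorem RationalIn.mono {P : (Fin p → ℂ) → ι → ℂ} {P' : (Fin p → ℂ) → ι' → ℂ} {ρ ρ' : ℝ} (h : RationalIn P P' ρ)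
    (hρ : ρ' ≤ ρ) : RationalIn P P' ρ' := by
  obtain ⟨Φ, φ, h0, h⟩ := h
  exact ⟨Φ, φ, h0, fun z hz => h z fun l => (hz l).trans_le hρ⟩

theorem curves (X : Fin p → CurveFamily) (hp : 1 ≤ p) : ∃ E : Finset ℂ, ∀ c : Fin p → ℂ,
    (∀ l, IsAlgebraic ℚ (c l) ∧ c l ∉ E) → ∃ ρ' : ℝ, 0 < ρ' ∧ ∀ (q : ℕ) (ρ : ℝ) (σ : Fin p → ℕ)
      (γ : ∀ l, Fin (σ l) → TransportedLoop (X l) (c l) ρ) (w : Fin q → ℂ), 0 < ρ →
      GRepresented (periods X c γ w) (min ρ ρ') := by
  classical
  obtain ⟨E, hE⟩ := curves_rep (fun l => (X l).F) (fun l => (X l).Q) (fun l => (X l).monic) (fun l => (X l).degree_pos)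
    (fun l => (X l).ne_zero) (fun l => (X l).unramified) (fun l => (X l).r) (fun l => (X l).P) (fun l => (X l).k)
  refine ⟨E, fun c hc => ?_⟩
  obtain ⟨K, hK, n, f, A, Z, W, hD, ρ', hρ', hrep⟩ := hE c hc
  refine ⟨ρ', hρ', fun q ρ σ γ w hρ => ?_⟩
  have hnf : NumberField K := { to_charZero := inferInstance, to_finiteDimensional := hK }
  refine ⟨K, inferInstance, hnf, inferInstance, n, Z, fun l => ⟨⟨f l, A l, (hD l).reg, (hD l).sys⟩,
    fun i j => (hD l).gZ i j, ⟨W l, ?_, fun i j => (hD l).gW i j⟩⟩, fun i => ?_⟩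
  · ext1 i j
    have h1 := (hD l).inv i j
    rw [← Matrix.one_apply] at h1
    exact h1
  · rcases i with ⟨l, s, i⟩ | j
    · obtain ⟨cc, hcc⟩ := hrep (min ρ ρ') (lt_min hρ hρ') (min_le_right _ _) l (γ l s).x (γ l s).y
        (Lpp.mono ⟨(γ l s).smooth, (γ l s).continuous, (γ l s).closed_x, (γ l s).closed_y, (γ l s).curve,
          (γ l s).away⟩ (min_le_left _ _)) i
      refine ⟨l, 0, cc, fun z hz => ?_⟩
      rw [zero_add]
      exact hcc (z l) (hz l)
    · refine ⟨⟨0, hp⟩, w j, 0, fun z hz => ?_⟩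
      simp [periods]

end proof

/-- **The theorem.** -/
theorem result :
    -- the number of the tuples
    (∀ (p : ℕ) (m : Fin p → ℕ), (∀ l, 1 ≤ m l) → ∃ c₀ : ℝ, 0 < c₀ ∧ ∀ T : ℕ, 1 ≤ T → (Tuples m T).Finite ∧
      c₀ * (T : ℝ) ^ size m ≤ ((Tuples m T).ncard : ℝ)) ∧
    -- rational functions of functions which are represented by G-functions
    (∀ (p : ℕ) (ι ι' : Type) (_ : Finite ι) (_ : Finite ι') (P : (Fin p → ℂ) → ι → ℂ) (P' : (Fin p → ℂ) → ι' → ℂ)
      (ρ : ℝ), 0 < ρ → GRepresented P ρ → RationalIn P P' ρ → AlmostAll P' ρ) ∧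
    -- rational functions of the periods of families of curves
    (∀ (p : ℕ) (X : Fin p → CurveFamily), 1 ≤ p → ∃ E : Finset ℂ, ∀ c : Fin p → ℂ,
      (∀ l, IsAlgebraic ℚ (c l) ∧ c l ∉ E) → ∀ (q : ℕ) (ρ : ℝ) (σ : Fin p → ℕ)
      (γ : ∀ l, Fin (σ l) → TransportedLoop (X l) (c l) ρ) (w : Fin q → ℂ) (ι' : Type) (_ : Finite ι')
      (P' : (Fin p → ℂ) → ι' → ℂ), 0 < ρ → RationalIn (periods X c γ w) P' ρ → AlmostAll P' ρ) := by
  classical
  refine ⟨?_, ?_, ?_⟩
  · intro p m hm
    have hexp : size m = ∑ l, Pool.Agent.Y916.Sl.Mm (m l) :=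
      Finset.sum_congr rfl fun l _ => (Pool.Agent.Y916.Sl.Mm_eq (m l)).symm
    choose c₁ hc₁ hmany using fun i => Pool.Agent.Y916.Sl.many (m i) (hm i)
    refine ⟨∏ i, c₁ i, Finset.prod_pos fun i _ => hc₁ i,
      fun T hT => ⟨Set.Finite.pi' fun i => Pool.Agent.Y916.Sl.sint_fin (m i) T, ?_⟩⟩
    have h1 : ((Tuples m T).ncard : ℝ) = ∏ i, ({ξ : ℂ | House (m i) T ξ}.ncard : ℝ) := by
      have h2 : Tuples m T = Set.univ.pi fun i => {ξ : ℂ | House (m i) T ξ} := by
        ext β
        simp [Tuples]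
      have hf : ∀ i, {ξ : ℂ | House (m i) T ξ}.Finite := fun i => Pool.Agent.Y916.Sl.sint_fin (m i) T
      have h3 : (Set.univ.pi fun i => {ξ : ℂ | House (m i) T ξ}) =
          ((Fintype.piFinset fun i => (hf i).toFinset : Finset (Fin p → ℂ)) : Set (Fin p → ℂ)) := by
        ext β
        simp
      rw [h2, h3, Set.ncard_coe_finset, Fintype.card_piFinset]
      push_cast
      refine Finset.prod_congr rfl fun i _ => ?_
      rw [Set.ncard_eq_toFinset_card _ (hf i)]
    rw [h1, hexp, ← Finset.prod_pow_eq_pow_sum, ← Finset.prod_mul_distrib]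
    refine Finset.prod_le_prod (fun i _ => ?_) fun i _ => hmany i T hT
    have := hc₁ i
    positivity
  · intro p ι ι' _ _ P P' ρ hρ hP hR
    exact almost_rational hρ hP hR
  · intro p X hp
    obtain ⟨E, hE⟩ := curves X hp
    refine ⟨E, fun c hc q ρ σ γ w ι' _ P' hρ hR => ?_⟩
    obtain ⟨ρ', hρ', hrep⟩ := hE c hc
    exact (almost_rational (lt_min hρ hρ') (hrep q ρ σ γ w hρ) (hR.mono (min_le_left _ _))).mono (min_le_left _ _)

end Pool.Agent.Results.MP_caab05_ag.TranscendenceDegrees
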