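import Pool.Agent.NH25.GR.Inv
import Pool.Agent.Y916.Sl.Many
import Pool.Agent.Y123.ST.Out

/-!
# Period torsors of products of arbitrarily many fibres

Let `X → U` be a family of smooth projective varieties over a curve over `ℚ`, with a coordinate `x` at a rational point `0`
where `X` is smooth or degenerates with unipotent local monodromy. In rational bases of the canonical extension the period
matrix (rows: Betti, columns: de Rham) of a cohomology group of the fibres is `P(x) = Ω x^N H(x)` with a nilpotent rational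
matrix `N` (which can be made integral), `Ω ∈ GL(ℂ)` and a matrix `H` of power series over `ℚ`, `H(0) = 1`, such that the entries of `H` and
`H⁻¹` are G-functions (`GFamily`, which makes no reference to geometry). Let `Gal(P)` be the group of the matrices `g` such that `P` and `g P`
satisfy the same polynomial relations over `ℂ(x, log x)`, the differential Galois group of the Gauss-Manin system over this field.

Let `M_0` be any object over a number field with period matrix `C₀` (for example, the motive of a fixed variety) and let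
`c = C₀ ⊕ ⨁_j P(x_j)` be the period matrix of the sum of `M_0` and of the fibres at the points `x_j`; the values of the
logarithms at the points, that is the paths, are arbitrary. For a number field `K ⊂ ℂ` a `K`-subtorsor is a subset `S` of
`GL` which is defined by polynomials over `K`, of any degree, and closed under `x y⁻¹ z`. The torsor of motivic isomorphisms
of `H_dR` and `H_B` is one and contains `c`, and Grothendieck's conjecture (its dimension is the transcendence degree of the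
periods) implies that it is contained in all others with `c ∈ S`, up to connected components, for all `K`. We show this,
relative to `M_0` and for families with big monodromy, for the **product of a number of fibres which is not bounded**: it may
be as large as a power of the height of the points.

**Conclusion** (`Good`) for points `x_j`, families `P_j` and a natural number `D`: for all paths, all number fields `K` of
degree at most `D` and all `K`-subtorsors `S` with `c ∈ S`

1. `S` is stable under `1 × ∏_j V_j` for all perfect subgroups `V_j` of the groups `known_j`, where `known_j` is the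
   commutator group of the group generated by all unipotent one-parameter groups in `Gal(P_j)`. The group `known_j` is the
   connected component of the Zariski closure of the monodromy group, and it is perfect, as this component is semisimple for
   families of smooth projective varieties by a theorem of Deligne.
2. Let `Gal(P_j)` contain, for all `j`, the group `special(B_j)` of the matrices of determinant `1` which respect a form
   `B_j`, where `B_j` is alternating and nondegenerate, or symmetric and nondegenerate of rank `≠ 2`, or zero. Then `S` is,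
   in the torsor of all isomorphisms `x_0 ⊕ ⨁ X_j` which respect polarisations (`X_j Q_j X_j^t = μ_j B_j`), the full inverse image
   of its image under `(x_0, det X_1, …, det X_k)`. (In the symplectic case the determinant is superfluous.) So the
   dimension of the smallest `K`-subtorsor is the dimension for `M_0 ⊕ ⨁ det M_j` plus `∑_j dim special(B_j)`.
3. Let moreover `M_0 = ℚ(-1)`, `C₀ = 2πi`. If `S` is contained in the torsor of the isomorphisms `z ⊕ ⨁ X_j` with
   `X_j Q_j X_j^t = z^(w_j) B_j` and `det X_j = δ_j z^(m_j)` then it is equal to this torsor, of dimension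
   `1 + ∑_j dim special(B_j)`.

**Theorem.**

(A) (Windows around algebraic points.) Let the entries of `Ω` and `C₀` be given polynomials over `ℚ` in given constants `Θ`
and `q` further numbers `w`. There is `G₀` such that for all `G ≥ G₀`, `D`, `m`, `A` there is an exponent `E` such that for all
algebraic numbers `ξ` of degree at most `m` and height at most `|ξ|^A`, all `L` with `(L + 2)^E ≤ |ξ|` and all `w ∈ ℂ^q` there is a
set of at most `trdeg ℚ(2πi, Θ) + q + 1` exceptional numbers such that the conclusion holds for **all the finite sets** of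
fibres at the points `x_u = 1 / (ξ - G u)`, `1 ≤ u ≤ L`, `u` not exceptional; in particular for the product of all of
them, whose number may be the power `|ξ|^(1 / E)` of the size of `ξ`, with `E` independent of `ξ` and of this number.

(B) (Almost all tuples.) Let `P_i`, `i ≤ s`, be families, `m_i ≥ 1`, `0 < η ≤ 1`, `D` natural. There are `c > 0` and `C` such that
for **all** `k`, all choices of `k` of these families (with repetitions, `f : {1..k} → {1..s}`, and with arbitrary matrices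
`Ω_j`), all `C₀` of given size, all `T ≥ 1` and all integers `a_j` in `[1, T^(1 - η)]` the conclusion holds for the points `x_j = a_j / β_j` for all but the
proportion `C k² T^(-c)` of the `k`-tuples of algebraic integers `β_j` of degree at most `m_(f j)` and house at most `T`. So the
number `k` of the factors may be `T^(c / 3)`. Moreover there are functions `D(T), κ(T) → ∞` and `δ(T) → 0` such that for `k ≤ κ(T)` the
conclusion holds with `D(T)` for all but the proportion `δ(T)` of the tuples.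

The theorems BigMonodromyTorsors and AlgebraicPointsTorsors treat a fixed number `k` of fibres; their constants depend on
`k`, and they do not give any statement on windows around algebraic points. Only the case of the subtorsors is treated here as
well: the theorem says that the Zariski closure of the period point is not contained in any smaller subtorsor; its
dimension is not determined.

Proof (`Pool/Agent/NH25/GR`). (Two fibres) The statement for one or two fibres is proved as in AlgebraicPointsTorsors; for the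
windows we use the theorem on windows around algebraic points `Pool.Agent.Y916.Af.winDs`, for the polynomial curves in the
fibres of the variety of the functional relations. (Goursat-Ribet) Let `p` be the projection of `S` to the blocks of two
fibres and of `M_0`. The closure of `p(S)` is a `K`-subtorsor (`TC_sub`) and so it is stable under `1 × known_i × known_j`. Now the group of
the `x y⁻¹`, `x, y ∈ S`, maps **onto** this group (`lift_conn`): take a component of `S` which dominates a component of the closure,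
and a generic point `x` of it over `K`; for `w` in the connected group `known_i × known_j` and a generic point `u` of the
component of the closure over a countable field which contains `w`, the points `u` and `w u` have the same ideal over `K` as `p(x)`,
so they are the images of points of `S` which are conjugate to `x` by automorphisms of `ℂ` over `K` (`exists_conj`). Hence there are
elements in the stabiliser of `S` with given components at `i` and trivial components at `j` and in `M_0`, and taking commutators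
we obtain those with trivial components at all `j ≠ i`, as the groups are perfect.
-/

set_option autoImplicit false

open PowerSeries Filter
open scoped commutatorElement Matrix

namespace Pool.Agent.Results.MP_caab05_ag.UnboundedProducts

/-- an integer polynomial as a power series with rational coefficients -/
noncomputable def toQ (P : Polynomial ℤ) : PowerSeries ℚ := ((P.map (Int.castRingHom ℚ) : Polynomial ℚ) : PowerSeries ℚ)

/-- The arithmetic conditions in the definition of a G-function, for a power series with rational coefficients: geometric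
growth of the coefficients and of their common denominators. -/
def GCond (g : PowerSeries ℚ) : Prop := ∃ C : ℝ, (∀ m, |((coeff m g : ℚ) : ℝ)| ≤ C ^ (m + 1)) ∧
  ∀ m, ∃ d : ℕ, 0 < d ∧ (d : ℝ) ≤ C ^ (m + 1) ∧ ∀ j ≤ m, ∃ a : ℤ, (d : ℚ) * coeff j g = a

/-- The matrix `x^N H(x)` is a fundamental matrix (rows: solutions) of a differential system over `ℚ(x)`, `N` is nilpotent,
`H(0) = 1` and the entries of `H` and of the inverse matrix are G-functions. -/
structure GFamily {n : ℕ} (N : Matrix (Fin n) (Fin n) ℤ) (H : Matrix (Fin n) (Fin n) (PowerSeries ℚ)) : Prop where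
  /-- `N` is nilpotent -/
  nil : N ^ n = 0
  /-- `H(0) = 1` -/
  one : ∀ i j, coeff 0 (H i j) = if i = j then 1 else 0
  /-- the differential system: `T (x H' + N H) = H A` -/
  ode : ∃ (T : Polynomial ℤ) (A : Fin n → Fin n → Polynomial ℤ), T ≠ 0 ∧ ∀ i j,
    toQ T * (X * PowerSeries.derivative ℚ (H i j) + ∑ l, C (N i l : ℚ) * H l j) = ∑ l, H i l * toQ (A l j)
  /-- the entries are G-functions -/
  gfun : ∀ i j, GCond (H i j)
  /-- the entries of the inverse matrix are G-functions -/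
  inv : ∃ W : Matrix (Fin n) (Fin n) (PowerSeries ℚ), H * W = 1 ∧ ∀ i j, GCond (W i j)

section family
variable {n : ℕ}

/-- The period matrix `Ω x^N H(x)` at `x = 1 / z` for the value `-ℓ` of `log x`, where `ℓ` is a logarithm of `z`. -/
noncomputable def perMat (N : Matrix (Fin n) (Fin n) ℤ) (H : Matrix (Fin n) (Fin n) (PowerSeries ℚ))
    (Ω : Matrix (Fin n) (Fin n) ℂ) (z ℓ : ℂ) : Matrix (Fin n) (Fin n) ℂ :=
  Ω * (∑ q ∈ Finset.range (n + 1), ((-ℓ) ^ q / (q.factorial : ℂ)) • (N ^ q).map (Int.cast : ℤ → ℂ)) *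
    Matrix.of fun i j => ∑' m : ℕ, ((coeff m (H i j) : ℚ) : ℂ) * (1 / z) ^ m

/-- the value at `x`, at the value `ℓ` of the variable `none` and at the matrix `Z` of a polynomial over `ℂ[x]` in the
variable `none` and the entries of a matrix -/
noncomputable def relAt (R : MvPolynomial (Option (Fin n × Fin n)) (Polynomial ℂ)) (x ℓ : ℂ)
    (Z : Matrix (Fin n) (Fin n) ℂ) : ℂ :=
  MvPolynomial.eval₂ (Polynomial.evalRingHom x) (fun o => o.elim ℓ fun v => Z v.1 v.2) R

/-- `g P(x)` satisfies all polynomial relations over `ℂ[x, log x]` which `P(x)` satisfies (`x = 1 / s`, `s` real). -/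
def Preserves (N : Matrix (Fin n) (Fin n) ℤ) (H : Matrix (Fin n) (Fin n) (PowerSeries ℚ))
    (Ω g : Matrix (Fin n) (Fin n) ℂ) : Prop :=
  ∀ R : MvPolynomial (Option (Fin n × Fin n)) (Polynomial ℂ),
    (∀ᶠ s : ℝ in Filter.atTop,
      relAt R (1 / (s : ℂ)) ((Real.log s : ℝ) : ℂ) (perMat N H Ω s ((Real.log s : ℝ) : ℂ)) = 0) →
    ∀ᶠ s : ℝ in Filter.atTop,
      relAt R (1 / (s : ℂ)) ((Real.log s : ℝ) : ℂ) (g * perMat N H Ω s ((Real.log s : ℝ) : ℂ)) = 0

/-- The group of the matrices `g` such that `g` and `g⁻¹` preserve the relations: the differential Galois group of the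
system over `ℂ(x, log x)`. -/
noncomputable def Gal (N : Matrix (Fin n) (Fin n) ℤ) (H : Matrix (Fin n) (Fin n) (PowerSeries ℚ))
    (Ω : Matrix (Fin n) (Fin n) ℂ) : Subgroup (Matrix.GeneralLinearGroup (Fin n) ℂ) where
  carrier := {g | Preserves N H Ω (g : Matrix (Fin n) (Fin n) ℂ) ∧
    Preserves N H Ω ((g⁻¹ : Matrix.GeneralLinearGroup (Fin n) ℂ) : Matrix (Fin n) (Fin n) ℂ)}
  mul_mem' := fun hg hg' => (Pool.Agent.NH25.AP.Gl N H Ω).mul_mem' hg hg'
  one_mem' := (Pool.Agent.NH25.AP.Gl N H Ω).one_mem'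
  inv_mem' := fun hg => (Pool.Agent.NH25.AP.Gl N H Ω).inv_mem' hg

theorem gal_eq (N : Matrix (Fin n) (Fin n) ℤ) (H : Matrix (Fin n) (Fin n) (PowerSeries ℚ))
    (Ω : Matrix (Fin n) (Fin n) ℂ) : Gal N H Ω = Pool.Agent.NH25.AP.Gl N H Ω := rfl

/-- the nilpotent matrices `A` with `exp (t A) ∈ G` for all `t` -/
def nilpotents (G : Subgroup (Matrix.GeneralLinearGroup (Fin n) ℂ)) : Set (Matrix (Fin n) (Fin n) ℂ) :=
  {A | IsNilpotent A ∧ ∀ t : ℂ, ∃ u ∈ G, (u : Matrix (Fin n) (Fin n) ℂ) = IsNilpotent.exp (t • A)}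

/-- the subgroup generated by all unipotent one-parameter groups in `G` -/
def unipotents (G : Subgroup (Matrix.GeneralLinearGroup (Fin n) ℂ)) : Subgroup (Matrix.GeneralLinearGroup (Fin n) ℂ) :=
  Subgroup.closure {u | ∃ A ∈ nilpotents G, ∃ t : ℂ, (u : Matrix (Fin n) (Fin n) ℂ) = IsNilpotent.exp (t • A)}

/-- the commutator group of the group generated by the unipotent one-parameter groups -/
def known (G : Subgroup (Matrix.GeneralLinearGroup (Fin n) ℂ)) : Subgroup (Matrix.GeneralLinearGroup (Fin n) ℂ) :=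
  ⁅unipotents G, unipotents G⁆

/-- the matrices of determinant `1` which respect the form `B`; the special linear group for `B = 0` -/
def special (B : Matrix (Fin n) (Fin n) ℂ) : Subgroup (Matrix.GeneralLinearGroup (Fin n) ℂ) where
  carrier := {g | (g : Matrix (Fin n) (Fin n) ℂ).det = 1 ∧
    (g : Matrix (Fin n) (Fin n) ℂ) * B * (g : Matrix (Fin n) (Fin n) ℂ)ᵀ = B}
  mul_mem' := fun hg hg' => (Pool.Agent.Y123.GN.GB B).mul_mem' hg hg'
  one_mem' := (Pool.Agent.Y123.GN.GB B).one_mem'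
  inv_mem' := fun hg => (Pool.Agent.Y123.GN.GB B).inv_mem' hg

/-- nondegenerate alternating forms -/
def Symplectic (B : Matrix (Fin n) (Fin n) ℂ) : Prop := IsUnit B ∧ Bᵀ = -B

/-- The form is zero, or nondegenerate and alternating, or nondegenerate and symmetric of rank different from `2`. -/
def Classical (B : Matrix (Fin n) (Fin n) ℂ) : Prop := B = 0 ∨ Symplectic B ∨ (IsUnit B ∧ Bᵀ = B ∧ n ≠ 2)

end family

/-- `S` is (the set of complex points of) a `K`-subtorsor of `GL_B = Iso (M_dR, M_B)`: it is closed under `x y⁻¹ z`, and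
it is defined in `GL_B` by polynomials with coefficients in `K`. -/
def IsSubtorsor (K : Subfield ℂ) {B : Type} [Fintype B] [DecidableEq B] (S : Set (Matrix B B ℂ)) : Prop :=
  (∀ x ∈ S, ∀ y ∈ S, ∀ z ∈ S, x * y⁻¹ * z ∈ S) ∧ ∃ I : Set (MvPolynomial (B × B) K), ∀ x : Matrix B B ℂ, x ∈ S ↔
    IsUnit x ∧ ∀ p ∈ I, MvPolynomial.eval (fun b => x b.1 b.2) (MvPolynomial.map (algebraMap K ℂ) p) = 0

/-- algebraic integers of degree at most `m` all of whose conjugates have absolute value at most `T` -/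
def House (m T : ℕ) (ξ : ℂ) : Prop :=
  IsIntegral ℤ ξ ∧ (minpoly ℚ ξ).natDegree ≤ m ∧ ∀ z : ℂ, Polynomial.aeval z (minpoly ℚ ξ) = 0 → ‖z‖ ≤ T

section
variable {k r : ℕ} {n : Fin k → ℕ}

/-- the block matrix `x ⊕ X_1 ⊕ … ⊕ X_k` -/
noncomputable def total (x : Matrix (Fin r) (Fin r) ℂ) (X : ∀ i, Matrix (Fin (n i)) (Fin (n i)) ℂ) :
    Matrix (Fin r ⊕ Σ i, Fin (n i)) (Fin r ⊕ Σ i, Fin (n i)) ℂ :=
  Matrix.fromBlocks x 0 0 (Matrix.blockDiagonal' X)

/-- the isomorphisms `X_i` respect the polarisations `Q_i` (de Rham) and `B_i` (Betti) up to the factors `μ_i` -/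
def Respects (B Q : ∀ i, Matrix (Fin (n i)) (Fin (n i)) ℂ) (μ : Fin k → ℂ)
    (X : ∀ i, Matrix (Fin (n i)) (Fin (n i)) ℂ) : Prop :=
  (∀ i, μ i ≠ 0) ∧ ∀ i, X i * Q i * (X i)ᵀ = μ i • B i

/-- The isomorphisms `z ⊕ … ⊕ z ⊕ X_1 ⊕ … ⊕ X_k` of an `r`-fold sum of the object `ℚ(-1)` and of the `M_i` which respect the
polarisations, with values in `ℚ(-w_i)`, and the identifications of `det M_i` with `ℚ(-m_i)` up to a twist. -/
def torsorOf (r : ℕ) (B Q : ∀ i, Matrix (Fin (n i)) (Fin (n i)) ℂ) (w m : Fin k → ℤ) (δ : Fin k → ℂ) :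
    Set (Matrix (Fin r ⊕ Σ i, Fin (n i)) (Fin r ⊕ Σ i, Fin (n i)) ℂ) :=
  {y | ∃ z : ℂ, z ≠ 0 ∧ ∃ X : ∀ i, Matrix (Fin (n i)) (Fin (n i)) ℂ, y = total (z • 1) X ∧
    ∀ i, X i * Q i * (X i)ᵀ = z ^ (w i) • B i ∧ (Symplectic (B i) ∨ (X i).det = δ i * z ^ (m i))}

/-- The conclusion for the fibres at the points `x_i = 1 / z_i`, for all paths and all number fields of degree `≤ D`. -/
def Good (D : ℕ) (C₀ : Matrix (Fin r) (Fin r) ℂ) (N : ∀ i, Matrix (Fin (n i)) (Fin (n i)) ℤ)
    (H : ∀ i, Matrix (Fin (n i)) (Fin (n i)) (PowerSeries ℚ)) (Ω : ∀ i, Matrix (Fin (n i)) (Fin (n i)) ℂ)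
    (z : Fin k → ℂ) : Prop :=
  ∀ ℓ : Fin k → ℂ, (∀ i, Complex.exp (ℓ i) = z i) →
  ∀ K : Subfield ℂ, FiniteDimensional ℚ K → Module.finrank ℚ K ≤ D →
  ∀ S : Set (Matrix (Fin r ⊕ Σ i, Fin (n i)) (Fin r ⊕ Σ i, Fin (n i)) ℂ), IsSubtorsor K S →
    total C₀ (fun i => perMat (N i) (H i) (Ω i) (z i) (ℓ i)) ∈ S →
  -- 1: stability under perfect groups
  (∀ V : ∀ i, Subgroup (Matrix.GeneralLinearGroup (Fin (n i)) ℂ), (∀ i, V i ≤ known (Gal (N i) (H i) (Ω i))) →
    (∀ i, ⁅V i, V i⁆ = V i) → ∀ g : ∀ i, Matrix.GeneralLinearGroup (Fin (n i)) ℂ, (∀ i, g i ∈ V i) →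
    ∀ x ∈ S, total 1 (fun i => (g i : Matrix (Fin (n i)) (Fin (n i)) ℂ)) * x ∈ S) ∧
  -- 2: big monodromy, relative case
  (∀ B : ∀ i, Matrix (Fin (n i)) (Fin (n i)) ℂ, (∀ i, Classical (B i)) →
    (∀ i, special (B i) ≤ Gal (N i) (H i) (Ω i)) →
    ∀ (Q : ∀ i, Matrix (Fin (n i)) (Fin (n i)) ℂ) (μ : Fin k → ℂ) (x₀ : Matrix (Fin r) (Fin r) ℂ)
      (X Y : ∀ i, Matrix (Fin (n i)) (Fin (n i)) ℂ), Respects B Q μ X → Respects B Q μ Y →
      (∀ i, Symplectic (B i) ∨ (X i).det = (Y i).det) → total x₀ X ∈ S → total x₀ Y ∈ S) ∧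
  -- 3: big monodromy, absolute case
  (0 < r → C₀ = (2 * Real.pi * Complex.I : ℂ) • 1 →
    ∀ B : ∀ i, Matrix (Fin (n i)) (Fin (n i)) ℂ, (∀ i, Classical (B i)) →
    (∀ i, special (B i) ≤ Gal (N i) (H i) (Ω i)) →
    ∀ (Q : ∀ i, Matrix (Fin (n i)) (Fin (n i)) ℂ) (w m : Fin k → ℤ) (δ : Fin k → ℂ),
      S ⊆ torsorOf r B Q w m δ → S = torsorOf r B Q w m δ)

theorem good_of {D : ℕ} {C₀ : Matrix (Fin r) (Fin r) ℂ} {N : ∀ i, Matrix (Fin (n i)) (Fin (n i)) ℤ}
    {H : ∀ i, Matrix (Fin (n i)) (Fin (n i)) (PowerSeries ℚ)} {Ω : ∀ i, Matrix (Fin (n i)) (Fin (n i)) ℂ} {z : Fin k → ℂ}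
    (hg : ∀ ℓ : Fin k → ℂ, (∀ i, Complex.exp (ℓ i) = z i) →
      Pool.Agent.NH25.GR.GoodP D (fun i => Pool.Agent.NH25.AP.Gl (N i) (H i) (Ω i))
        (Pool.Agent.Y123.GN.EG C₀ fun i => Pool.Agent.NH25.AP.pC (N i) (H i) (Ω i) (z i) (ℓ i))) :
    Good D C₀ N H Ω z := by
  intro ℓ hℓ K hKf hKD S hS hcS
  have hS' := Pool.Agent.Y123.ST.subT_iff.1 hS
  have h1 := hg ℓ hℓ K hKf hKD S hS' hcS
  have hKalg : ∀ x ∈ K, IsAlgebraic ℚ x := by
    intro x hx
    have : NumberField K := { to_charZero := inferInstance, to_finiteDimensional := hKf }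
    have h6 : IsAlgebraic ℚ (⟨x, hx⟩ : K) := Algebra.IsAlgebraic.isAlgebraic _
    exact h6.algebraMap (A := ℂ)
  have h2 : ∀ B : ∀ i, Matrix (Fin (n i)) (Fin (n i)) ℂ, (∀ i, Classical (B i)) →
      (∀ i, special (B i) ≤ Gal (N i) (H i) (Ω i)) →
      ∀ g : ∀ i, (Matrix (Fin (n i)) (Fin (n i)) ℂ)ˣ, (∀ i, g i ∈ Pool.Agent.Y123.GN.GB (B i)) →
      ∀ x ∈ S, Pool.Agent.Y123.GN.EG 1 (fun i => (g i : Matrix (Fin (n i)) (Fin (n i)) ℂ)) * x ∈ S := by
    intro B hB hBG g hgB x hx
    refine h1 (fun i => Pool.Agent.Y123.GN.GB (B i)) (fun i => Pool.Agent.Y123.GN.mono_comm (hBG i)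
      (Pool.Agent.Y123.GN.cl_perf (hB i))) (fun i => ?_) g hgB x hx
    exact (Pool.Agent.Y123.GN.cl_perf (hB i)).trans (Subgroup.commutator_mono (Pool.Agent.Y123.GN.Ug_le _)
      (Pool.Agent.Y123.GN.Ug_le _))
  refine ⟨fun V hV hVp => h1 V hV fun i => (hVp i).ge, ?_, ?_⟩
  · intro B hB hBG Q μ x₀ X Y hX hY hd hx
    exact Pool.Agent.Y123.GN.fibre_full hS' (h2 B hB hBG) hX.1 hx hX.2 hY.2 hd
  · intro hr hC₀ B hB hBG Q w m δ hSF
    have hne : Nonempty (Fin r) := ⟨⟨0, hr⟩⟩
    rw [hC₀] at hcS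
    exact Pool.Agent.Y123.GN.absolute hKalg hS' hcS (h2 B hB hBG) hSF

end

theorem sdc {f : PowerSeries ℚ} (h : GCond f) : Pool.Agent.Y113.SDc f := by
  obtain ⟨C, h1, h2⟩ := h
  have h0 : Pool.Agent.Y113.SDp C f := ⟨h1, h2⟩
  obtain ⟨e, he⟩ := exists_nat_ge C
  refine ⟨e, h0.mono (he.trans ?_)⟩
  exact_mod_cast (Nat.lt_two_pow_self (n := e)).le

/-- the families satisfy the hypotheses of the general theorems -/
theorem nrh {n : ℕ} {N : Matrix (Fin n) (Fin n) ℤ} {H : Matrix (Fin n) (Fin n) (PowerSeries ℚ)} (hG : GFamily N H) :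
    Pool.Agent.Y916.Af.NRh (Pool.Agent.NH25.AP.hT H) := by
  obtain ⟨T, A, hT, hode⟩ := hG.ode
  obtain ⟨W, hW1, hW2⟩ := hG.inv
  have hN0 : ((N.map (Int.cast : ℤ → ℚ))ᵀ) ^ n = 0 := by
    have h1 := map_pow (RingHom.mapMatrix (m := Fin n) (Int.castRingHom ℚ)) N n
    rw [hG.nil, map_zero] at h1
    rw [← Matrix.transpose_pow]
    have h2 : (N.map (Int.cast : ℤ → ℚ)) ^ n = 0 := h1.symm
    rw [h2, Matrix.transpose_zero]
  have hf := Pool.Agent.Y120.J.A.gfs_gen (H := Hᵀ) (W := Wᵀ) (N := (N.map (Int.cast : ℤ → ℚ))ᵀ) (Nz := fun i j => N j i)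
    (T₁ := T) (A := fun i j => A j i) hN0 (fun i j => rfl) hT (by
      rw [← Matrix.transpose_mul, mul_eq_one_comm.1 hW1, Matrix.transpose_one])
    (fun i j => by
      rw [Matrix.transpose_apply, hG.one]
      simp only [eq_comm])
    (fun i j => by
      have h1 := hode j i
      have h2 : ∑ l, C (N j l : ℚ) * H l i = ∑ l, Hᵀ i l * C ((N.map (Int.cast : ℤ → ℚ))ᵀ l j) := by
        refine Finset.sum_congr rfl fun l _ => ?_
        rw [mul_comm]
        rfl
      have h3 : ∑ l, H j l * toQ (A l i) = ∑ l, Pool.Agent.Y113.ps (A l i) * Hᵀ l j := by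
        refine Finset.sum_congr rfl fun l _ => ?_
        rw [mul_comm]
        rfl
      rw [h2, h3] at h1
      exact h1)
    (fun i j => sdc (hG.gfun j i)) (fun i j => sdc (hW2 j i))
  exact Pool.Agent.Y916.Af.nrh_of_gfs hf

/-- `ξ` is a root of a nonzero integral polynomial of degree at most `m` with coefficients of size at most `|ξ|^A` -/
def Height (m A : ℕ) (ξ : ℂ) : Prop :=
  ∃ p : Polynomial ℤ, p ≠ 0 ∧ p.natDegree ≤ m ∧ (∀ j, |(p.coeff j : ℝ)| ≤ ‖ξ‖ ^ A) ∧ Polynomial.aeval ξ p = 0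

/-- the matrix of the values at `(Θ, w)` of a matrix of polynomials over `ℚ` -/
noncomputable def valueAt {p q l : ℕ} (o : Matrix (Fin l) (Fin l) (MvPolynomial (Fin p ⊕ Fin q) ℚ)) (Θ : Fin p → ℂ)
    (w : Fin q → ℂ) : Matrix (Fin l) (Fin l) ℂ := o.map (MvPolynomial.aeval (Sum.elim Θ w))

/-- a common bound for the coefficients -/
theorem exists_bound {s : ℕ} {n : Fin s → ℕ} {N : ∀ i, Matrix (Fin (n i)) (Fin (n i)) ℤ}
    {H : ∀ i, Matrix (Fin (n i)) (Fin (n i)) (PowerSeries ℚ)} (hg : ∀ i a b, GCond (H i a b)) :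
    ∃ C₁ : ℝ, 0 ≤ C₁ ∧ ∀ i a b l, |((coeff l (H i a b) : ℚ) : ℝ)| ≤ C₁ ^ (l + 1) := by
  have _ := N
  choose Ci hCi using fun i a b => hg i a b
  refine ⟨∑ i, ∑ a, ∑ b, |Ci i a b|, by positivity, fun i a b l => ?_⟩
  refine ((hCi i a b).1 l).trans ?_
  refine (le_abs_self _).trans ?_
  rw [abs_pow]
  refine pow_le_pow_left₀ (abs_nonneg _) ?_ _
  have h1 : |Ci i a b| ≤ ∑ b, |Ci i a b| :=
    Finset.single_le_sum (f := fun b => |Ci i a b|) (fun _ _ => abs_nonneg _) (Finset.mem_univ b)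
  have h2 : ∑ b, |Ci i a b| ≤ ∑ a, ∑ b, |Ci i a b| :=
    Finset.single_le_sum (f := fun a => ∑ b, |Ci i a b|) (fun _ _ => by positivity) (Finset.mem_univ a)
  have h3 : ∑ a, ∑ b, |Ci i a b| ≤ ∑ i, ∑ a, ∑ b, |Ci i a b| :=
    Finset.single_le_sum (f := fun i => ∑ a, ∑ b, |Ci i a b|) (fun _ _ => by positivity) (Finset.mem_univ i)
  exact h1.trans (h2.trans h3)

/-- **The theorem.** -/
theorem result :
    -- (A) windows around algebraic points
    (∀ (n : ℕ) (N : Matrix (Fin n) (Fin n) ℤ) (H : Matrix (Fin n) (Fin n) (PowerSeries ℚ)), GFamily N H →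
      ∃ G₀ : ℕ, 1 ≤ G₀ ∧ ∀ G : ℕ, G₀ ≤ G → ∀ (p : ℕ) (Θ : Fin p → ℂ) (q r m D A : ℕ)
        (o : Matrix (Fin n) (Fin n) (MvPolynomial (Fin p ⊕ Fin q) ℚ))
        (c : Matrix (Fin r) (Fin r) (MvPolynomial (Fin p ⊕ Fin q) ℚ)), ∃ E : ℕ, ∀ (L : ℕ) (ξ : ℂ),
        ((L : ℝ) + 2) ^ E ≤ ‖ξ‖ → Height m A ξ → ∀ w : Fin q → ℂ, ∃ S : Finset ℕ,
        (S.card : Cardinal) ≤
          Algebra.trdeg ℚ (IntermediateField.adjoin ℚ (insert (2 * Real.pi * Complex.I) (Set.range Θ))) + q + 1 ∧
        ∀ (k : ℕ) (u : Fin k → ℕ), Function.Injective u → (∀ j, 1 ≤ u j ∧ u j ≤ L ∧ u j ∉ S) →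
          Good D (valueAt c Θ w) (fun _ => N) (fun _ => H) (fun _ => valueAt o Θ w)
            (fun j => ξ - ((G * u j : ℕ) : ℂ))) ∧
    -- (B) almost all tuples of any length
    (∀ (s : ℕ) (n : Fin s → ℕ) (N : ∀ i, Matrix (Fin (n i)) (Fin (n i)) ℤ)
      (H : ∀ i, Matrix (Fin (n i)) (Fin (n i)) (PowerSeries ℚ)), (∀ i, GFamily (N i) (H i)) →
      ∀ (r : ℕ) (m : Fin s → ℕ), (∀ i, 1 ≤ m i) → ∀ η : ℝ, 0 < η → η ≤ 1 →
      (∀ D : ℕ, ∃ c C : ℝ, 0 < c ∧ 0 ≤ C ∧ ∀ (k : ℕ) (f : Fin k → Fin s)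
        (Ω : ∀ j, Matrix (Fin (n (f j))) (Fin (n (f j))) ℂ) (C₀ : Matrix (Fin r) (Fin r) ℂ) (T : ℕ), 1 ≤ T →
        ∀ a : Fin k → ℕ, (∀ j, 1 ≤ a j ∧ (a j : ℝ) ≤ (T : ℝ) ^ (1 - η)) →
        (({β : Fin k → ℂ | (∀ j, House (m (f j)) T (β j)) ∧
          ¬ Good D C₀ (fun j => N (f j)) (fun j => H (f j)) Ω fun j => β j / a j}.ncard : ℕ) : ℝ) ≤
          C * (k : ℝ) ^ 2 * (T : ℝ) ^ (-c) * (({β : Fin k → ℂ | ∀ j, House (m (f j)) T (β j)}.ncard : ℕ) : ℝ)) ∧
      (∃ (D κ : ℕ → ℕ) (δ : ℕ → ℝ), Tendsto D atTop atTop ∧ Tendsto κ atTop atTop ∧ Tendsto δ atTop (nhds 0) ∧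
        ∀ (T : ℕ), 1 ≤ T → ∀ (k : ℕ), k ≤ κ T → ∀ (f : Fin k → Fin s)
        (Ω : ∀ j, Matrix (Fin (n (f j))) (Fin (n (f j))) ℂ) (C₀ : Matrix (Fin r) (Fin r) ℂ)
        (a : Fin k → ℕ), (∀ j, 1 ≤ a j ∧ (a j : ℝ) ≤ (T : ℝ) ^ (1 - η)) →
        (({β : Fin k → ℂ | (∀ j, House (m (f j)) T (β j)) ∧
          ¬ Good (D T) C₀ (fun j => N (f j)) (fun j => H (f j)) Ω fun j => β j / a j}.ncard : ℕ) : ℝ) ≤
          δ T * (({β : Fin k → ℂ | ∀ j, House (m (f j)) T (β j)}.ncard : ℕ) : ℝ))) := by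
  classical
  refine ⟨?_, ?_⟩
  · intro n N H hG
    obtain ⟨W, hHW, hW⟩ := hG.inv
    obtain ⟨C₁, hC₁, hh₁⟩ := exists_bound (s := 2) (n := fun _ => n) (N := fun _ => N) (H := ![H, W]) (by
      intro i a b
      fin_cases i
      · exact hG.gfun a b
      · exact hW a b)
    have hh : ∀ a b l, |((coeff l (H a b) : ℚ) : ℝ)| ≤ C₁ ^ (l + 1) := fun a b l => hh₁ 0 a b l
    have hhW : ∀ a b l, |((coeff l (W a b) : ℚ) : ℝ)| ≤ C₁ ^ (l + 1) := fun a b l => hh₁ 1 a b l
    obtain ⟨G₀, hG₀, hwin⟩ := Pool.Agent.NH25.GR.winAll hG.nil (nrh hG) hC₁ hh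
      (Pool.Agent.NH25.GR.Hm_unit hHW hC₁ hh hhW)
    refine ⟨G₀, hG₀, fun G hGG p Θ q r m D A o c => ?_⟩
    obtain ⟨E, hE⟩ := hwin G hGG p Θ q r m D A o c
    refine ⟨E, fun L ξ hξ hHt w => ?_⟩
    obtain ⟨S, hS, h1⟩ := hE L ξ hξ hHt w
    refine ⟨S, hS, fun k u hu hub => good_of fun ℓ hℓ => ?_⟩
    exact h1 k u hu hub ℓ hℓ _ _ rfl rfl
  · intro s n N H hG r m hm η hη hη1
    obtain ⟨C₁, hC₁, hh⟩ := exists_bound (N := N) (H := H) fun i a b => (hG i).gfun a b
    have hprod : ∀ (k : ℕ) (f : Fin k → Fin s) (T : ℕ), ({β : Fin k → ℂ | ∀ j, House (m (f j)) T (β j)}.ncard : ℝ) =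
        ∏ j, ({ξ : ℂ | House (m (f j)) T ξ}.ncard : ℝ) := by
      intro k f T
      have h2 : {β : Fin k → ℂ | ∀ j, House (m (f j)) T (β j)} = Set.univ.pi fun j => {ξ : ℂ | House (m (f j)) T ξ} := by
        ext β
        simp
      have hf : ∀ j, {ξ : ℂ | House (m (f j)) T ξ}.Finite := fun j => Pool.Agent.Y916.Sl.sint_fin (m (f j)) T
      have h3 : (Set.univ.pi fun j => {ξ : ℂ | House (m (f j)) T ξ}) =
          ((Fintype.piFinset fun j => (hf j).toFinset : Finset (Fin k → ℂ)) : Set (Fin k → ℂ)) := by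
        ext β
        simp
      rw [h2, h3, Set.ncard_coe_finset, Fintype.card_piFinset]
      push_cast
      refine Finset.prod_congr rfl fun j _ => ?_
      rw [Set.ncard_eq_toFinset_card _ (hf j)]
    have hmain : ∀ D : ℕ, ∃ c C : ℝ, 0 < c ∧ 0 ≤ C ∧ ∀ (k : ℕ) (f : Fin k → Fin s)
        (Ω : ∀ j, Matrix (Fin (n (f j))) (Fin (n (f j))) ℂ) (C₀ : Matrix (Fin r) (Fin r) ℂ) (T : ℕ), 1 ≤ T →
        ∀ a : Fin k → ℕ, (∀ j, 1 ≤ a j ∧ (a j : ℝ) ≤ (T : ℝ) ^ (1 - η)) →
        (({β : Fin k → ℂ | (∀ j, House (m (f j)) T (β j)) ∧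
          ¬ Good D C₀ (fun j => N (f j)) (fun j => H (f j)) Ω fun j => β j / a j}.ncard : ℕ) : ℝ) ≤
          C * (k : ℝ) ^ 2 * (T : ℝ) ^ (-c) * (({β : Fin k → ℂ | ∀ j, House (m (f j)) T (β j)}.ncard : ℕ) : ℝ) := by
      intro D
      obtain ⟨c, C, hc, hC, hA⟩ := Pool.Agent.NH25.GR.tupAll D r (fun i => (hG i).nil) (fun i => nrh (hG i)) hC₁ hh m hm hη hη1
      refine ⟨c, C, hc, hC, fun k f Ω C₀ T hT a ha => ?_⟩
      obtain ⟨Q, hQ, hA'⟩ := hA k f Ω C₀ T hT a ha
      rw [hprod]
      refine le_trans ?_ hQ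
      have hsub : {β : Fin k → ℂ | (∀ j, House (m (f j)) T (β j)) ∧
          ¬ Good D C₀ (fun j => N (f j)) (fun j => H (f j)) Ω fun j => β j / a j} ⊆ (Q : Set (Fin k → ℂ)) := by
        rintro β ⟨hβ, hbad⟩
        by_contra hβQ
        apply hbad
        refine good_of fun ℓ hℓ => ?_
        exact hA' β hβ (fun h => hβQ (Finset.mem_coe.2 h)) ℓ hℓ
      have h5 := Set.ncard_le_ncard hsub (Finset.finite_toSet _)
      rw [Set.ncard_coe_finset] at h5
      exact_mod_cast h5
    refine ⟨hmain, ?_⟩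
    choose c C hc hC hcount using hmain
    obtain ⟨D, hD, hδ⟩ := Pool.Agent.Y123.GN.diag_seq (fun D T => C D * (D : ℝ) ^ 2 * (1 / (T : ℝ) ^ (c D))) (by
      intro D
      have h2 : Tendsto (fun N : ℕ => (1 : ℝ) / (N : ℝ) ^ (c D)) atTop (nhds 0) := by
        have h3 := (tendsto_rpow_atTop (hc D)).comp tendsto_natCast_atTop_atTop
        have h4 := h3.inv_tendsto_atTop
        refine h4.congr fun N => ?_
        rw [one_div]
        rfl
      have h5 := h2.const_mul (C D * (D : ℝ) ^ 2)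
      rw [mul_zero] at h5
      exact h5)
    refine ⟨D, D, _, hD, hD, hδ, ?_⟩
    intro T hT k hk f Ω C₀ a ha
    refine (hcount (D T) k f Ω C₀ T hT a ha).trans ?_
    refine mul_le_mul_of_nonneg_right ?_ (Nat.cast_nonneg _)
    have hT0 : (0 : ℝ) < T := by exact_mod_cast hT
    rw [Real.rpow_neg hT0.le, ← one_div]
    refine mul_le_mul_of_nonneg_right ?_ (by positivity)
    refine mul_le_mul_of_nonneg_left ?_ (hC _)
    exact pow_le_pow_left₀ (Nat.cast_nonneg _) (by exact_mod_cast hk) 2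

end Pool.Agent.Results.MP_caab05_ag.UnboundedProducts
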